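import Pool.Agent.N747.TF.Gx

/-!
# TF/PP: the number of the translates where the function does not vanish
-/

set_option autoImplicit false
set_option linter.unusedSectionVars false

namespace Pool.Agent.N747.TF

open Finset Pool.Agent.H916R2 Pool.Agent.N992 Pool.Agent.N993
open Pool.Agent.N198.TB (Sp sq rs one S1 MM bx box Z0)
open Pool.Agent.N198.TF

set_option allowUnsafeReducibility true in
attribute [local semireducible] cyk cyc

/-- `φ` of an odd prime or of 4 -/
def ph (x : ℕ) : ℕ := if x = 4 then 2 else x - 1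

section

variable {ι : Type} [Fintype ι] [DecidableEq ι] {nb : ι → ℕ} [∀ i, NeZero (nb i)]

lemma act_supp_eq (D : Dat ι) (x : D.Pt) :
    ∃ w : D.GG, x = D.act w (one (univ.filter (fun i => x i ≠ none))) := by
  refine ⟨fun i => (x i).getD 1, ?_⟩
  funext i
  cases hx : x i with
  | none => exact (Pool.Agent.N198.TB.one_apply_not (by simp [hx]) _).symm
  | some u =>
    rw [Pool.Agent.N198.TB.one_apply_mem (by simp [hx]), hx, Option.getD_some, mul_one]

lemma sum_orbit {D : Dat ι} (f : D.Pt → ℤ) (x : D.Pt) :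
    ∑ v : D.GG, |f (D.act v x)| = S1 (univ.filter (fun i => x i ≠ none)) f := by
  obtain ⟨w, hw⟩ := act_supp_eq D x
  conv_lhs => rw [hw]
  unfold S1
  rw [← Equiv.sum_comp (Equiv.mulRight w) (fun b => |f (D.act b (one _))|)]
  refine sum_congr rfl fun b _ => ?_
  rw [Dat.act_act]
  rfl

/-- the properties of the system -/
structure Ok (T : Finset ι) (f : (cyk nb).Pt → ℤ) : Prop where
  rl : ∀ q, Rl q f
  ev : ∀ x, f ((cyk nb).act (cyk nb).c x) = f x
  sp : ∀ x, f x ≠ 0 → ∀ i ∈ T, x i ≠ none
  nm : ∀ R, T ⊆ R → S1 R f * wg (cyk nb) R * ((T.card - 1).factorial : ℤ) ≤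
    MM (cyk nb) * (2 ^ R.card * ((R.card - 1).factorial : ℤ))

lemma ok_of_lam {T : Finset ι} (hT : Even T.card) {L : (cyk nb).Pt → ℤ}
    (hL : Lam T (univ \ T) L) : Ok T L where
  rl := by
    intro q
    by_cases hq : q ∈ T
    · intro x hx
      rw [hL.z0 q hq x hx]
      have h0 : ∀ y : (cyk nb).Pt, y q = none → L y = 0 := by
        intro y hy
        by_contra h
        exact (hL.sp y h).1 q hq hy
      rw [h0 _ (Dat.act_apply_none hx), h0 _ (Dat.act_apply_none hx), sub_zero]
    · exact hL.rel q (mem_sdiff.mpr ⟨mem_univ q, hq⟩)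
  ev := by
    intro x
    rw [hL.odd, hT.neg_one_pow, one_mul]
  sp := fun x hx => (hL.sp x hx).1
  nm := by
    intro R hTR
    obtain ⟨J, hJ⟩ : ∃ J, J = R \ T := ⟨_, rfl⟩
    have hRJ : T ∪ J = R := by rw [hJ]; exact union_sdiff_of_subset hTR
    have hJQ : J ⊆ univ \ T := by rw [hJ]; exact sdiff_subset_sdiff (subset_univ _) le_rfl
    have hcard : T.card + J.card = R.card := by
      rw [hJ, add_comm]; exact card_sdiff_add_card_eq_card hTR
    have h1 := hL.norm J hJQ
    rw [hRJ, hcard] at h1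
    exact h1

lemma Ok.act {T : Finset ι} {f : (cyk nb).Pt → ℤ} (hf : Ok T f) (b : (cyk nb).GG) :
    Ok T (fun x => f ((cyk nb).act b x)) where
  rl := fun q => Rl_act (hf.rl q) b
  ev := by
    intro x
    beta_reduce
    rw [Dat.act_act, mul_comm, ← Dat.act_act, hf.ev]
  sp := fun x hx i hi h => hf.sp _ hx i hi (Dat.act_apply_none h)
  nm := by
    intro R hR
    have h1 : S1 R (fun x => f ((cyk nb).act b x)) = S1 R f := by
      unfold S1
      rw [← Equiv.sum_comp (Equiv.mulLeft b) (fun v => |f ((cyk nb).act v (one R))|)]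
      refine sum_congr rfl fun v _ => ?_
      beta_reduce
      rw [Dat.act_act]
      rfl
    rw [h1]
    exact hf.nm R hR

variable {i0 : ι} {K : ℕ}

lemma supp_update (b : (cyk nb).GG) (x : (cyk nb).Pt) (u : (cyk nb).G i0) :
    univ.filter (fun i => Function.update ((cyk nb).act b x) i0 (some u) i ≠ none) =
      insert i0 (univ.filter (fun i => x i ≠ none)) := by
  ext i
  rw [mem_filter, mem_insert, mem_filter]
  by_cases h : i = i0
  · subst h
    simp
  · rw [Function.update_of_ne h]
    simp [Dat.act_eq_none, h]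

lemma supp_act (b : (cyk nb).GG) (x : (cyk nb).Pt) :
    univ.filter (fun i => (cyk nb).act b x i ≠ none) = univ.filter (fun i => x i ≠ none) := by
  ext i
  simp [Dat.act_eq_none]

lemma zero_of_not {T : Finset ι} {f : (cyk nb).Pt → ℤ} (hf : Ok T f) {y : (cyk nb).Pt}
    (h : ¬ T ⊆ univ.filter (fun i => y i ≠ none)) (b : (cyk nb).GG) :
    f ((cyk nb).act b y) = 0 := by
  by_contra h0
  apply h
  intro i hi
  rw [mem_filter]
  refine ⟨mem_univ _, fun hy => hf.sp _ h0 i hi (Dat.act_apply_none hy)⟩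

lemma card_units_le (hi0 : nb i0 = 2 ^ K * 4) (s : ℕ) (c : ZMod (nb i0)) :
    (univ.filter (fun u : (cyk nb).G i0 => 2 ^ s * vb u = c)).card ≤ 2 ^ s := by
  refine le_trans ?_ (card_pow_mul hi0 s c)
  refine card_le_card_of_injOn vb ?_ ?_
  · intro u hu
    rw [mem_coe, mem_filter] at hu
    rw [mem_coe, mem_filter]
    exact ⟨mem_univ _, hu.2⟩
  · intro u _ v _ h
    exact vb_injective h

/-- the number of the translates -/
theorem density (hi0 : nb i0 = 2 ^ K * 4) {T : Finset ι} (h4 : 4 ≤ T.card)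
    {f : (cyk nb).Pt → ℤ} (hf : Ok T f) {P : Finset ι → ℤ}
    (hw1 : ∀ R, i0 ∉ R → P R = wg (cyk nb) R)
    (hw2 : ∀ R, i0 ∉ R → P (insert i0 R) = 2 * wg (cyk nb) R)
    (hw3 : ∀ R, i0 ∉ R → wg (cyk nb) (insert i0 R) = 2 ^ (K + 1) * wg (cyk nb) R)
    {x : (cyk nb).Pt} (hx : x i0 = none) (t : ZMod (nb i0)) :
    (∀ b : (cyk nb).GG, HH i0 K (fun y => f ((cyk nb).act b y)) x t = 0) ∨
      ∃ R, T ⊆ R ∧ (∑ b : (cyk nb).GG, |HH i0 K (fun y => f ((cyk nb).act b y)) x t|) * P R *
        ((T.card - 1).factorial : ℤ) ≤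
          MM (cyk nb) * (2 ^ R.card * ((R.card - 1).factorial : ℤ)) := by
  obtain ⟨R0, hR0⟩ : ∃ R0, R0 = univ.filter (fun i => x i ≠ none) := ⟨_, rfl⟩
  have hiR : i0 ∉ R0 := by
    rw [hR0, mem_filter]
    exact fun h => h.2 hx
  have hfac : 0 ≤ ((T.card - 1).factorial : ℤ) := by positivity
  have hwg := Pool.Agent.N198.TB.wg_pos (D := cyk nb) R0
  have hwg' : 0 < wg (cyk nb) R0 := hwg
  by_cases ht : t = 0
  · subst ht
    simp only [HH_zero hi0]
    by_cases hTR : T ⊆ R0
    · right
      refine ⟨R0, hTR, ?_⟩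
      rw [sum_orbit, ← hR0, hw1 R0 hiR]
      exact hf.nm R0 hTR
    · left
      intro b
      exact zero_of_not hf (by rw [← hR0]; exact hTR) b
  obtain ⟨s, hs, w, hw⟩ := exists_pow_unit hi0 t ht
  obtain ⟨w', hw'⟩ : ∃ w' : (cyk nb).G i0, vb w' = (w : ZMod (nb i0)) := ⟨w, rfl⟩
  rw [← hw'] at hw
  subst hw
  by_cases hsK : s = K + 1
  · subst hsK
    simp only [HH_last hi0 (Rl_act (hf.rl i0) _) hx]
    by_cases hTR : T ⊆ R0
    · right
      refine ⟨insert i0 R0, hTR.trans (subset_insert _ _), ?_⟩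
      have h1 : ∑ b : (cyk nb).GG, |f ((cyk nb).act b ((cyk nb).act (tau nb) x)) -
          f ((cyk nb).act b x)| ≤ 2 * S1 R0 f := by
        calc _ ≤ ∑ b : (cyk nb).GG, (|f ((cyk nb).act b ((cyk nb).act (tau nb) x))| +
              |f ((cyk nb).act b x)|) := sum_le_sum fun b _ => abs_sub _ _
          _ = 2 * S1 R0 f := by
            rw [sum_add_distrib, sum_orbit, sum_orbit,
              supp_act, ← hR0]
            ring
      have h2 := hf.nm R0 hTR
      rw [hw2 R0 hiR, card_insert_of_notMem hiR, Nat.add_sub_cancel]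
      have hc : 4 ≤ R0.card := h4.trans (card_le_card hTR)
      have h3 : (R0.card.factorial : ℤ) = R0.card * ((R0.card - 1).factorial : ℤ) := by
        exact_mod_cast (Nat.mul_factorial_pred (by omega : R0.card ≠ 0)).symm
      have h5 : (0 : ℤ) ≤ ((R0.card - 1).factorial : ℤ) := by positivity
      have hM := Pool.Agent.N198.TB.MM_pos (cyk nb)
      have h6 : (4 : ℤ) ≤ R0.card := by exact_mod_cast hc
      calc _ ≤ 2 * S1 R0 f * (2 * wg (cyk nb) R0) * ((T.card - 1).factorial : ℤ) := by
            refine mul_le_mul_of_nonneg_right (mul_le_mul_of_nonneg_right h1 ?_) hfac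
            linarith
        _ = 4 * (S1 R0 f * wg (cyk nb) R0 * ((T.card - 1).factorial : ℤ)) := by ring
        _ ≤ 4 * (MM (cyk nb) * (2 ^ R0.card * ((R0.card - 1).factorial : ℤ))) :=
          mul_le_mul_of_nonneg_left h2 (by norm_num)
        _ = MM (cyk nb) * 2 ^ R0.card * 2 * (2 * ((R0.card - 1).factorial : ℤ)) := by ring
        _ ≤ MM (cyk nb) * 2 ^ R0.card * 2 * (R0.card * ((R0.card - 1).factorial : ℤ)) := by
          refine mul_le_mul_of_nonneg_left (mul_le_mul_of_nonneg_right (by linarith) h5) ?_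
          positivity
        _ = _ := by rw [h3]; ring
    · left
      intro b
      have hTR' : ¬ T ⊆ univ.filter (fun i => x i ≠ none) := by rw [← hR0]; exact hTR
      rw [zero_of_not hf hTR' b, zero_of_not hf (by rw [supp_act]; exact hTR') b, sub_zero]
  · have hsK' : s ≤ K := by omega
    simp only [HH_pow hi0 _ x hs]
    by_cases hTR : T ⊆ insert i0 R0
    · right
      refine ⟨insert i0 R0, hTR, ?_⟩
      have h1 : ∑ b : (cyk nb).GG, |∑ u : (cyk nb).G i0,
          (if 2 ^ s * vb u = 2 ^ s * vb w' then 1 else 0) *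
            f ((cyk nb).act b (Function.update ((cyk nb).act ((tau nb)⁻¹ ^ s) x) i0 (some u)))| ≤
          2 ^ s * S1 (insert i0 R0) f := by
        calc _ ≤ ∑ b : (cyk nb).GG, ∑ u : (cyk nb).G i0,
                (if 2 ^ s * vb u = 2 ^ s * vb w' then 1 else 0) *
                |f ((cyk nb).act b
                  (Function.update ((cyk nb).act ((tau nb)⁻¹ ^ s) x) i0 (some u)))| := by
              refine sum_le_sum fun b _ => (abs_sum_le_sum_abs _ _).trans (le_of_eq ?_)
              refine sum_congr rfl fun u _ => ?_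
              rw [abs_mul]
              congr 1
              split_ifs <;> norm_num
          _ = ∑ u : (cyk nb).G i0, (if 2 ^ s * vb u = 2 ^ s * vb w' then 1 else 0) *
                S1 (insert i0 R0) f := by
              rw [sum_comm]
              refine sum_congr rfl fun u _ => ?_
              rw [← mul_sum, sum_orbit, supp_update, ← hR0]
          _ = ((univ.filter (fun u : (cyk nb).G i0 => 2 ^ s * vb u = 2 ^ s * vb w')).card : ℤ) *
                S1 (insert i0 R0) f := by
              rw [← sum_mul, sum_boole]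
          _ ≤ 2 ^ s * S1 (insert i0 R0) f := by
              refine mul_le_mul_of_nonneg_right ?_ (sum_nonneg fun _ _ => abs_nonneg _)
              exact_mod_cast card_units_le hi0 s _
      have h2 := hf.nm (insert i0 R0) hTR
      have hS : 0 ≤ S1 (insert i0 R0) f := sum_nonneg fun _ _ => abs_nonneg _
      rw [hw3 R0 hiR] at h2
      rw [hw2 R0 hiR]
      refine le_trans ?_ h2
      refine mul_le_mul_of_nonneg_right ?_ hfac
      calc _ ≤ 2 ^ s * S1 (insert i0 R0) f * (2 * wg (cyk nb) R0) :=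
            mul_le_mul_of_nonneg_right h1 (by linarith)
        _ = 2 ^ (s + 1) * (S1 (insert i0 R0) f * wg (cyk nb) R0) := by ring
        _ ≤ 2 ^ (K + 1) * (S1 (insert i0 R0) f * wg (cyk nb) R0) := by
          refine mul_le_mul_of_nonneg_right ?_ (mul_nonneg hS hwg'.le)
          exact pow_le_pow_right₀ (by norm_num) (by omega)
        _ = _ := by ring
    · left
      intro b
      refine sum_eq_zero fun u _ => ?_
      rw [zero_of_not hf (by rw [supp_update, ← hR0]; exact hTR) b, mul_zero]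

end

end Pool.Agent.N747.TF
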