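import Pool.Agent.N747.TF.HH

/-!
# TF/PP: the function on the product and its relations
-/

set_option autoImplicit false
set_option linter.unusedSectionVars false

namespace Pool.Agent.N747.TF

open Finset Pool.Agent.H916R2 Pool.Agent.N992 Pool.Agent.N993
open Pool.Agent.N198.TB (Sp sq rs one S1 MM bx box Z0)
open Pool.Agent.N198.TF

set_option allowUnsafeReducibility true in
attribute [local semireducible] cyk cyc

section

variable {ι : Type} [Fintype ι] [DecidableEq ι] {nb : ι → ℕ} [∀ i, NeZero (nb i)]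

/-- the point of an element of the product -/
noncomputable def ptb (a : ∀ i, ZMod (nb i)) : (cyk nb).Pt := fun i => by
  classical exact if h : IsUnit (a i) then some h.unit else none

lemma ptb_of_isUnit {a : ∀ i, ZMod (nb i)} {i : ι} (h : IsUnit (a i)) :
    ∃ u : (cyk nb).G i, ptb a i = some u ∧ vb u = a i := by
  refine ⟨h.unit, ?_, h.unit_spec⟩
  unfold ptb
  exact dif_pos h

lemma ptb_of_not {a : ∀ i, ZMod (nb i)} {i : ι} (h : ¬ IsUnit (a i)) : ptb a i = none := by
  unfold ptb
  exact dif_neg h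

lemma ptb_of_eq {a : ∀ i, ZMod (nb i)} {i : ι} {u : (cyk nb).G i} (h : a i = vb u) :
    ptb a i = some u := by
  obtain ⟨v, hv, hv'⟩ := ptb_of_isUnit (h ▸ vb_isUnit u : IsUnit (a i))
  rw [hv]
  congr 1
  exact vb_injective (hv'.trans h)

lemma ptb_update_vb (a : ∀ i, ZMod (nb i)) (i : ι) (u : (cyk nb).G i) :
    ptb (Function.update a i (vb u)) = Function.update (ptb a) i (some u) := by
  funext j
  by_cases h : j = i
  · subst h
    rw [Function.update_self]
    exact ptb_of_eq (Function.update_self ..)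
  · rw [Function.update_of_ne h]
    unfold ptb
    rw [Function.update_of_ne h]

lemma ptb_update_not (a : ∀ i, ZMod (nb i)) (i : ι) {v : ZMod (nb i)} (hv : ¬ IsUnit v) :
    ptb (Function.update a i v) = Function.update (ptb a) i none := by
  funext j
  by_cases h : j = i
  · subst h
    rw [Function.update_self]
    exact ptb_of_not (by rwa [Function.update_self])
  · rw [Function.update_of_ne h]
    unfold ptb
    rw [Function.update_of_ne h]

variable {i0 : ι} {K : ℕ}

/-- the part of the point at the odd indices -/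
noncomputable def x0 (i0 : ι) (a : ∀ i, ZMod (nb i)) : (cyk nb).Pt :=
  Function.update (ptb a) i0 none

lemma x0_self (a : ∀ i, ZMod (nb i)) : x0 i0 a i0 = none := Function.update_self ..

lemma x0_ne (a : ∀ i, ZMod (nb i)) {j : ι} (h : j ≠ i0) : x0 i0 a j = ptb a j :=
  Function.update_of_ne h ..

lemma ptb_mul_apply (b : (cyk nb).GG) {a a' : ∀ i, ZMod (nb i)} {j : ι}
    (h : a' j = vb (b j) * a j) : ptb a' j = (cyk nb).act b (ptb a) j := by
  by_cases hu : IsUnit (a j)
  · obtain ⟨w, hw1, hw2⟩ := ptb_of_isUnit hu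
    rw [Dat.act_apply_some hw1]
    refine ptb_of_eq ?_
    rw [vb_mul, hw2, h]
  · rw [Dat.act_apply_none (ptb_of_not hu)]
    refine ptb_of_not ?_
    rw [h]
    intro h'
    exact hu ((vb_isUnit (b j)).mul_left_iff.mp h')

lemma x0_mul (b : (cyk nb).GG) {a a' : ∀ i, ZMod (nb i)}
    (h : ∀ j, j ≠ i0 → a' j = vb (b j) * a j) :
    x0 i0 a' = (cyk nb).act b (x0 i0 a) := by
  funext j
  by_cases hj : j = i0
  · subst hj
    rw [x0_self, Dat.act_apply_none (x0_self a)]
  · rw [x0_ne a' hj, ptb_mul_apply b (h j hj)]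
    unfold Dat.act
    rw [x0_ne a hj]

lemma x0_update (a : ∀ i, ZMod (nb i)) (v : ZMod (nb i0)) :
    x0 i0 (Function.update a i0 v) = x0 i0 a := by
  funext j
  by_cases hj : j = i0
  · subst hj
    rw [x0_self, x0_self]
  · rw [x0_ne _ hj, x0_ne _ hj]
    unfold ptb
    rw [Function.update_of_ne hj]

/-- the function on the product -/
noncomputable def Gx (i0 : ι) (K : ℕ) (f : (cyk nb).Pt → ℤ) (a : ∀ i, ZMod (nb i)) : ℤ :=
  HH i0 K f (x0 i0 a) (a i0)

lemma Gx_unit (f : (cyk nb).Pt → ℤ) (b : (cyk nb).GG) {a a' : ∀ i, ZMod (nb i)}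
    (h : ∀ j, a' j = vb (b j) * a j) :
    Gx i0 K f a' = HH i0 K (fun y => f ((cyk nb).act b y)) (x0 i0 a) (a i0) := by
  unfold Gx
  rw [x0_mul b (fun j _ => h j), h i0, HH_act]

/-- the sum over a ring of prime order -/
lemma sum_prime' {A : Type} [AddCommMonoid A] {i : ι} (hp : (nb i).Prime) (g : ZMod (nb i) → A) :
    ∑ j : ZMod (nb i), g j = g 0 + ∑ u : (cyk nb).G i, g (vb u) := by
  classical
  have : Fact (nb i).Prime := ⟨hp⟩
  rw [← Finset.add_sum_erase univ g (mem_univ 0)]
  congr 1
  symm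
  refine sum_bij (fun u _ => vb u) ?_ ?_ ?_ ?_
  · intro u _
    exact mem_erase.mpr ⟨(vb_isUnit u).ne_zero, mem_univ _⟩
  · intro u _ v _ h
    exact vb_injective h
  · intro j hj
    have h0 : j ≠ 0 := (mem_erase.mp hj).1
    exact ⟨Units.mk0 j h0, mem_univ _, rfl⟩
  · intro u _; rfl

lemma vb_alpha {i j : ι} (h : (nb i).Coprime (nb j)) :
    vb ((cyk nb).α i j) = (nb i : ZMod (nb j)) := unOf_val h

lemma Gx_odd (hcob : Pairwise (fun i j => (nb i).Coprime (nb j))) {f : (cyk nb).Pt → ℤ} {i : ι}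
    (hi : i ≠ i0) (hp : (nb i).Prime) (hf : Rl i f) (hβ : (cyk nb).β i = 1)
    (a : ∀ i, ZMod (nb i)) :
    ∑ v : ZMod (nb i), Gx i0 K f (Function.update a i v) = Gx i0 K f ((nb i) • a) := by
  have : Fact (nb i).Prime := ⟨hp⟩
  obtain ⟨X, hX⟩ : ∃ X, X = Function.update (x0 i0 a) i none := ⟨_, rfl⟩
  have hXi : X i = none := by rw [hX, Function.update_self]
  have e0 : Gx i0 K f (Function.update a i 0) = HH i0 K f X (a i0) := by
    unfold Gx
    rw [Function.update_of_ne hi.symm, hX]
    unfold x0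
    rw [ptb_update_not a i not_isUnit_zero, Function.update_comm hi]
  have e1 : ∀ u : (cyk nb).G i, Gx i0 K f (Function.update a i (vb u)) =
      HH i0 K f (Function.update X i (some u)) (a i0) := by
    intro u
    unfold Gx
    rw [Function.update_of_ne hi.symm, hX, Function.update_idem]
    unfold x0
    rw [ptb_update_vb a i u, Function.update_comm hi]
  have e2 : Gx i0 K f ((nb i) • a) =
      HH i0 K f ((cyk nb).act ((cyk nb).α i) X) (vb ((cyk nb).α i i0) * a i0) := by
    unfold Gx
    have h1 : ((nb i) • a) i0 = vb ((cyk nb).α i i0) * a i0 := by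
      rw [vb_alpha (hcob hi), Pi.smul_apply, nsmul_eq_mul]
    rw [h1]
    congr 1
    funext j
    by_cases hj : j = i
    · subst hj
      rw [Dat.act_apply_none hXi, x0_ne _ hi]
      refine ptb_of_not ?_
      rw [Pi.smul_apply, nsmul_eq_mul, ZMod.natCast_self, zero_mul]
      exact not_isUnit_zero
    · have h2 : X j = x0 i0 a j := by rw [hX, Function.update_of_ne hj]
      have h3 : (cyk nb).act ((cyk nb).α i) X j = (cyk nb).act ((cyk nb).α i) (x0 i0 a) j := by
        unfold Dat.act
        rw [h2]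
      rw [h3]
      by_cases hj0 : j = i0
      · subst hj0
        rw [x0_self, Dat.act_apply_none (x0_self a)]
      · rw [x0_ne _ hj0, ptb_mul_apply ((cyk nb).α i) (a := a)]
        · unfold Dat.act
          rw [x0_ne a hj0]
        · rw [vb_alpha (hcob (Ne.symm hj)), Pi.smul_apply, nsmul_eq_mul]
  rw [sum_prime' hp, e0, sum_congr rfl (fun u _ => e1 u), e2]
  exact HH_odd hi hf hβ hXi _

lemma Gx_two (hi0 : nb i0 = 2 ^ K * 4) (hcob : Pairwise (fun i j => (nb i).Coprime (nb j)))
    {f : (cyk nb).Pt → ℤ} (hf : Rl i0 f) (a : ∀ i, ZMod (nb i)) :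
    Gx i0 K f a + Gx i0 K f (Function.update a i0 (a i0 + 2 ^ (K + 1))) =
      Gx i0 K f (2 • a) := by
  have h1 : Gx i0 K f (Function.update a i0 (a i0 + 2 ^ (K + 1))) =
      HH i0 K f (x0 i0 a) (a i0 + 2 ^ (K + 1)) := by
    unfold Gx
    rw [x0_update, Function.update_self]
  have h2 : Gx i0 K f (2 • a) = HH i0 K f ((cyk nb).act (tau nb) (x0 i0 a)) (2 * a i0) := by
    unfold Gx
    rw [x0_mul (tau nb) (a := a)]
    · congr 1
      rw [Pi.smul_apply, nsmul_eq_mul]
      push_cast; rfl
    · intro j hj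
      have h3 : (2 : ℕ).Coprime (nb j) :=
        Nat.Coprime.coprime_dvd_left ⟨2 ^ K * 2, by rw [hi0]; ring⟩ (hcob (Ne.symm hj))
      have h4 : vb (tau nb j) = ((2 : ℕ) : ZMod (nb j)) := unOf_val h3
      rw [h4, Pi.smul_apply, nsmul_eq_mul]
  rw [h1, h2]
  exact HH_two hi0 hf (x0_self a) _

lemma Gx_neg {f : (cyk nb).Pt → ℤ} (hf : ∀ x, f ((cyk nb).act (cyk nb).c x) = f x)
    (a : ∀ i, ZMod (nb i)) : Gx i0 K f (-a) = Gx i0 K f a := by
  rw [Gx_unit f (cyk nb).c (a := a) (a' := -a)]
  · exact HH_congr hf _ _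
  · intro j
    have : vb ((cyk nb).c j) = -1 := rfl
    rw [this, Pi.neg_apply, neg_one_mul]

end

/-! ### Levels -/

section

variable {ι : Type} [Fintype ι] [DecidableEq ι] {n : ι → ℕ} [∀ i, NeZero (n i)] {N : ℕ} [NeZero N]

/-- the sum over the translates, odd prime -/
lemma sum_level (hco : Pairwise (fun i j => (n i).Coprime (n j)))
    (hN : ∏ i, n i = N) (E : (∀ i, ZMod (n i)) ≃+* ZMod N) (g : (∀ i, ZMod (n i)) → ℤ) {i : ι}
    (hp : (n i).Prime) {d : ℕ} (hpd : n i * d = N) (a : ZMod N) :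
    ∑ k ∈ range (n i), g (E.symm (a + (k : ZMod N) * (d : ZMod N))) =
      ∑ j : ZMod (n i), g (Function.update (E.symm a) i j) := by
  obtain ⟨M, hM⟩ : ∃ M, M = ∏ l ∈ univ.erase i, n l := ⟨_, rfl⟩
  have hNM : n i * M = N := by rw [hM, Finset.mul_prod_erase univ n (mem_univ i), hN]
  obtain rfl : d = M := Nat.eq_of_mul_eq_mul_left hp.pos (hpd.trans hNM.symm)
  have hcop : (n i).Coprime d := by
    rw [hM]
    exact Nat.Coprime.prod_right fun l hl => hco (Finset.ne_of_mem_erase hl).symm
  have hfact : Fact (n i).Prime := ⟨hp⟩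
  have hMu : IsUnit ((d : ℕ) : ZMod (n i)) := by
    rw [ZMod.isUnit_iff_coprime]; exact hcop.symm
  have hterm : ∀ k : ℕ, E.symm (a + (k : ZMod N) * (d : ZMod N)) =
      Function.update (E.symm a) i (E.symm a i + (k : ZMod (n i)) * (d : ZMod (n i))) := by
    intro k
    have e1 : (k : ZMod N) * (d : ZMod N) = ((k * d : ℕ) : ZMod N) := by push_cast; rfl
    rw [e1, map_add, map_natCast]
    funext l
    by_cases hl : l = i
    · subst hl
      rw [Function.update_self, Pi.add_apply, Pi.natCast_apply]; push_cast; rfl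
    · rw [Function.update_of_ne hl, Pi.add_apply, Pi.natCast_apply]
      have : ((k * d : ℕ) : ZMod (n l)) = 0 := by
        rw [ZMod.natCast_eq_zero_iff, hM]
        exact (Finset.dvd_prod_of_mem n (Finset.mem_erase.mpr ⟨hl, mem_univ l⟩)).mul_left k
      rw [this, add_zero]
  simp only [hterm]
  refine sum_bij (fun k _ => E.symm a i + (k : ZMod (n i)) * (d : ZMod (n i)))
    (fun _ _ => mem_univ _) ?_ ?_ (fun _ _ => rfl)
  · intro k hk k' hk' h
    have h3 : (k : ZMod (n i)) = (k' : ZMod (n i)) := hMu.mul_right_cancel (add_left_cancel h)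
    rw [ZMod.natCast_eq_natCast_iff'] at h3
    rwa [Nat.mod_eq_of_lt (mem_range.mp hk), Nat.mod_eq_of_lt (mem_range.mp hk')] at h3
  · intro j _
    obtain ⟨u, hu⟩ := hMu
    refine ⟨((j - E.symm a i) * (u⁻¹ : (ZMod (n i))ˣ)).val, mem_range.mpr (ZMod.val_lt _), ?_⟩
    rw [ZMod.natCast_zmod_val, ← hu, mul_assoc, Units.inv_mul, mul_one, add_sub_cancel]

/-- the sum over the translates, two -/
lemma two_level (hco : Pairwise (fun i j => (n i).Coprime (n j)))
    (hN : ∏ i, n i = N) (E : (∀ i, ZMod (n i)) ≃+* ZMod N) (g : (∀ i, ZMod (n i)) → ℤ) {i : ι}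
    {K : ℕ} (hi : n i = 2 ^ K * 4) {d : ℕ} (hd : 2 * d = N) (a : ZMod N) :
    ∑ k ∈ range 2, g (E.symm (a + (k : ZMod N) * (d : ZMod N))) =
      g (E.symm a) + g (Function.update (E.symm a) i (E.symm a i + 2 ^ (K + 1))) := by
  obtain ⟨M, hM⟩ : ∃ M, M = ∏ l ∈ univ.erase i, n l := ⟨_, rfl⟩
  have hNM : n i * M = N := by rw [hM, Finset.mul_prod_erase univ n (mem_univ i), hN]
  have hdM : d = 2 ^ (K + 1) * M := by
    have : 2 * d = 2 * (2 ^ (K + 1) * M) := by rw [hd, ← hNM, hi, pow_succ]; ring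
    omega
  have hcop : (n i).Coprime M := by
    rw [hM]
    exact Nat.Coprime.prod_right fun l hl => hco (Finset.ne_of_mem_erase hl).symm
  have hodd : Odd M := by
    have : Nat.Coprime 2 M :=
      Nat.Coprime.coprime_dvd_left ⟨2 ^ K * 2, by rw [hi]; ring⟩ hcop
    rwa [Nat.coprime_two_left] at this
  rw [sum_range_succ, sum_range_one]
  congr 1
  · congr 2
    push_cast; ring
  · congr 1
    have e1 : ((1 : ℕ) : ZMod N) * ((d : ℕ) : ZMod N) = ((d : ℕ) : ZMod N) := by
      push_cast; ring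
    rw [e1, map_add, map_natCast]
    funext l
    by_cases hl : l = i
    · subst hl
      rw [Function.update_self, Pi.add_apply, Pi.natCast_apply]
      congr 1
      obtain ⟨j, hj⟩ := hodd
      have h5 := two_pow_zero hi
      rw [hdM, hj]
      push_cast
      linear_combination (j : ZMod (n l)) * h5
    · rw [Function.update_of_ne hl, Pi.add_apply, Pi.natCast_apply]
      have : ((d : ℕ) : ZMod (n l)) = 0 := by
        rw [ZMod.natCast_eq_zero_iff, hdM, hM]
        exact (Finset.dvd_prod_of_mem n (Finset.mem_erase.mpr ⟨hl, mem_univ l⟩)).mul_left _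
      rw [this, add_zero]

/-- the distribution relations at the level `N` -/
structure Dst {m : ℕ} (c : ZMod m → ℤ) : Prop where
  dist : ∀ p d : ℕ, p.Prime → p * d = m → ∀ a,
    ∑ i ∈ range p, c (a + (i : ZMod m) * (d : ZMod m)) = c ((p : ZMod m) * a)

lemma Dst.comp_iota {k m0 m : ℕ} [NeZero m0] (h : k * m0 = m)
    {c : ZMod m → ℤ} (hc : Dst c) : Dst (fun b : ZMod m0 => c (iota k b)) where
  dist := fun p d hp hpd a => by
    have h1 := hc.dist p (k * d) hp (by rw [← h, ← hpd]; ring) (iota k a)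
    rw [iota_natMul h, ← h1]
    refine sum_congr rfl fun i _ => ?_
    congr 1
    rw [iota_add h]
    congr 1
    have : (i : ZMod m0) * (d : ZMod m0) = ((i * d : ℕ) : ZMod m0) := by push_cast; rfl
    rw [this, iota_natCast h]
    push_cast; ring

/-- a function satisfying the distribution relations gives a system -/
theorem isD0_of_dst (hn : Adm' n) (hco : Pairwise (fun i j => (n i).Coprime (n j)))
    (hN : ∏ i, n i = N) (E : (∀ i, ZMod (n i)) ≃+* ZMod N)
    {c : ZMod N → ℤ} (hc : Dst c) :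
    (cyc n).IsD0 univ (fun x => c (E (emb x))) := by
  have hprime : ∀ i, (n i).Prime → ∀ x : ∀ i, ZMod (n i),
      ∑ j : ZMod (n i), c (E (Function.update x i j)) = c (E ((n i) • x)) := by
    intro i hp x
    have hNM : n i * ∏ l ∈ univ.erase i, n l = N := by
      rw [Finset.mul_prod_erase univ n (mem_univ i), hN]
    have h1 := hc.dist (n i) _ hp hNM (E x)
    have h2 := sum_level hco hN E (fun y => c (E y)) hp hNM (E x)
    simp only [RingEquiv.apply_symm_apply, RingEquiv.symm_apply_apply] at h2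
    rw [← h2, h1, map_nsmul, nsmul_eq_mul]
  have hfour : ∀ i, n i = 4 → ∀ x : ∀ i, ZMod (n i),
      c (E x) + c (E (Function.update x i (x i + 2))) = c (E (2 • x)) := by
    intro i h4 x
    have hNM : n i * ∏ l ∈ univ.erase i, n l = N := by
      rw [Finset.mul_prod_erase univ n (mem_univ i), hN]
    have h2M : 2 * (2 * ∏ l ∈ univ.erase i, n l) = N := by rw [← hNM, h4]; ring
    have h1 := hc.dist 2 _ Nat.prime_two h2M (E x)
    have h2 := two_level hco hN E (fun y => c (E y)) (K := 0) (i := i) (by rw [h4]; norm_num)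
      h2M (E x)
    simp only [RingEquiv.apply_symm_apply, RingEquiv.symm_apply_apply] at h2
    rw [zero_add, pow_one] at h2
    rw [← h2, h1, map_nsmul, nsmul_eq_mul]
  intro i _ x _ hx
  simp only [emb_update_some]
  rcases hn i with ⟨hp, _⟩ | h4
  · have h1 := hprime i hp (emb x)
    rw [sum_prime hp] at h1
    have h0 : Function.update (emb x) i 0 = emb x := by
      rw [← emb_none hx]; exact Function.update_eq_self i _
    rw [h0] at h1
    rw [emb_alpha hco hx, beta_one (not_four_of_prime hp), Dat.act_one, ← h1]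
    abel
  · rw [sum_four h4 (fun v => c (E (Function.update (emb x) i v)))]
    have h1 := hfour i h4 (Function.update (emb x) i 1)
    have h2 := hfour i h4 (2 • emb x)
    rw [Function.update_self, Function.update_idem] at h1
    have e3 : (1 + 2 : ZMod (n i)) = 3 := by norm_num
    rw [e3] at h1
    have e4 : 2 • Function.update (emb x) i 1 =
        Function.update (2 • emb x) i ((2 • emb x) i + 2) := by
      funext j
      by_cases h : j = i
      · subst h
        rw [Pi.smul_apply, Function.update_self, Function.update_self, Pi.smul_apply, emb_none hx]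
        norm_num
      · rw [Pi.smul_apply, Function.update_of_ne h, Function.update_of_ne h, Pi.smul_apply]
    have e5 : 2 • (2 • emb x) = (n i) • emb x := by
      rw [h4, ← mul_smul]; norm_num
    rw [h1, e4, emb_alpha hco hx, emb_beta hco h4 hx, ← e5, ← h2]
    abel

end

end Pool.Agent.N747.TF
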