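import Pool.Agent.N747.TF.Two
import Pool.Agent.N198.TF.Def
import Pool.Agent.N198.TB.Odd

/-!
# TF/PP: the extension of a system at the index of the power of two
-/

set_option autoImplicit false
set_option linter.unusedSectionVars false

namespace Pool.Agent.N747.TF

open Finset Pool.Agent.H916R2 Pool.Agent.N992 Pool.Agent.N993
open Pool.Agent.N198.TB (Sp sq rs one S1 MM bx box Z0)
open Pool.Agent.N198.TF

set_option allowUnsafeReducibility true in
attribute [local semireducible] cyk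

section

variable {ι : Type} [Fintype ι] [DecidableEq ι] {nb : ι → ℕ} [∀ i, NeZero (nb i)]

/-- the value of an element of the group with index `i` -/
def vb {i : ι} (u : (cyk nb).G i) : ZMod (nb i) := Units.val (α := ZMod (nb i)) u

lemma vb_mul {i : ι} (u v : (cyk nb).G i) : vb (u * v) = vb u * vb v := rfl

lemma vb_isUnit {i : ι} (u : (cyk nb).G i) : IsUnit (vb u) := Units.isUnit (M := ZMod (nb i)) u

lemma vb_injective {i : ι} {u v : (cyk nb).G i} (h : vb u = vb v) : u = v :=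
  Units.ext (α := ZMod (nb i)) h

/-- multiplication by two at the odd indices -/
def tau (nb : ι → ℕ) [∀ i, NeZero (nb i)] : (cyk nb).GG := fun i => unOf 2 (nb i)

lemma unOf_of_not {k m : ℕ} (h : ¬ k.Coprime m) : unOf k m = 1 := by
  unfold unOf; rw [dif_neg h]

lemma unOf_pow (k m : ℕ) (hk : k ≠ 0) : unOf (2 ^ k) m = unOf 2 m ^ k := by
  by_cases h : (2 : ℕ).Coprime m
  · apply Units.ext
    rw [unOf_val (h.pow_left k), Units.val_pow_eq_pow_val, unOf_val h]
    push_cast; rfl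
  · rw [unOf_of_not h, unOf_of_not, one_pow]
    intro h1
    exact h (Nat.Coprime.coprime_dvd_left (dvd_pow_self 2 hk) h1)

variable {i0 : ι} {K : ℕ}

lemma tau_self (hi0 : nb i0 = 2 ^ K * 4) : tau nb i0 = 1 := by
  refine unOf_of_not ?_
  intro h
  have h1 : (2 : ℕ) ∣ nb i0 := ⟨2 ^ K * 2, by rw [hi0]; ring⟩
  have := Nat.Coprime.eq_one_of_dvd h h1
  omega

lemma alpha_eq (hi0 : nb i0 = 2 ^ K * 4) : (cyk nb).α i0 = tau nb ^ (K + 2) := by
  funext j
  have h1 : (cyk nb).α i0 j = unOf (2 ^ (K + 2)) (nb j) := by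
    change unOf (nb i0) (nb j) = _
    rw [hi0]
    congr 1
    rw [pow_add]
    norm_num
  rw [h1, Pi.pow_apply]
  exact unOf_pow (K + 2) (nb j) (by omega)

lemma beta_eq (hi0 : nb i0 = 2 ^ K * 4) : (cyk nb).β i0 = tau nb ^ (K + 1) := by
  funext j
  have h1 : (cyk nb).β i0 j = unOf (2 ^ (K + 1)) (nb j) := by
    change (if 2 ∣ nb i0 then unOf (nb i0 / 2) (nb j) else 1) = _
    have h2 : nb i0 = 2 ^ (K + 1) * 2 := by rw [hi0]; ring
    rw [if_pos (by rw [h2]; exact Dvd.intro_left _ rfl), h2, Nat.mul_div_cancel _ (by norm_num)]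
  rw [h1, Pi.pow_apply]
  exact unOf_pow (K + 1) (nb j) (by omega)

lemma Rl_act {q : ι} {f : (cyk nb).Pt → ℤ} (hf : Rl q f) (b : (cyk nb).GG) :
    Rl q (fun x => f ((cyk nb).act b x)) := by
  intro x hx
  have h1 := hf ((cyk nb).act b x) (Dat.act_apply_none hx)
  simp only [Dat.act_update_some]
  have h2 : ∑ u : (cyk nb).G q, f (Function.update ((cyk nb).act b x) q (some (b q * u))) =
      ∑ u : (cyk nb).G q, f (Function.update ((cyk nb).act b x) q (some u)) :=
    Fintype.sum_equiv (Equiv.mulLeft (b q)) _ _ (fun u => rfl)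
  rw [h2, h1]
  simp only [Dat.act_act]
  rw [mul_comm b, mul_comm b]

/-- the extension of a system at the index `i0` -/
noncomputable def HH (i0 : ι) (K : ℕ) (f : (cyk nb).Pt → ℤ) (x : (cyk nb).Pt)
    (t : ZMod (nb i0)) : ℤ :=
  (if 0 = t then 1 else 0) * f x +
    ∑ r ∈ range (K + 2), ∑ u : (cyk nb).G i0, (if 2 ^ r * vb u = t then 1 else 0) *
      f (Function.update ((cyk nb).act ((tau nb)⁻¹ ^ r) x) i0 (some u))

lemma HH_act (f : (cyk nb).Pt → ℤ) (x : (cyk nb).Pt) (t : ZMod (nb i0)) (b : (cyk nb).GG) :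
    HH i0 K f ((cyk nb).act b x) (vb (b i0) * t) =
      HH i0 K (fun y => f ((cyk nb).act b y)) x t := by
  unfold HH
  have hb := vb_isUnit (b i0)
  congr 1
  · congr 1
    have : (0 : ZMod (nb i0)) = vb (b i0) * t ↔ 0 = t := by
      constructor
      · intro h
        exact hb.mul_left_cancel (by rw [← h, mul_zero])
      · rintro rfl
        rw [mul_zero]
    simp only [this]
  · refine sum_congr rfl fun r _ => ?_
    rw [← Equiv.sum_comp (Equiv.mulLeft (b i0))]
    refine sum_congr rfl fun u _ => ?_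
    have h1 : (2 ^ r * vb ((Equiv.mulLeft (b i0)) u) = vb (b i0) * t) ↔ 2 ^ r * vb u = t := by
      have h2 : vb ((Equiv.mulLeft (b i0)) u) = vb (b i0) * vb u := rfl
      rw [h2]
      constructor
      · intro h
        exact hb.mul_left_cancel (by rw [← h]; ring)
      · rintro rfl
        ring
    simp only [h1]
    congr 2
    rw [Dat.act_update_some, Dat.act_act, Dat.act_act, mul_comm b]
    rfl

lemma HH_congr {f g : (cyk nb).Pt → ℤ} (h : ∀ y, f y = g y) (x : (cyk nb).Pt)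
    (t : ZMod (nb i0)) : HH i0 K f x t = HH i0 K g x t := by
  have : f = g := funext h
  rw [this]

/-- the relation at an odd prime -/
lemma HH_odd {f : (cyk nb).Pt → ℤ} {i : ι} (hi : i ≠ i0) (hf : Rl i f) (hβ : (cyk nb).β i = 1)
    {x : (cyk nb).Pt} (hx : x i = none) (t : ZMod (nb i0)) :
    HH i0 K f x t + ∑ v : (cyk nb).G i, HH i0 K f (Function.update x i (some v)) t =
      HH i0 K f ((cyk nb).act ((cyk nb).α i) x) (vb ((cyk nb).α i i0) * t) := by
  have hf' : ∀ y : (cyk nb).Pt, y i = none →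
      f y + ∑ v : (cyk nb).G i, f (Function.update y i (some v)) =
        f ((cyk nb).act ((cyk nb).α i) y) := by
    intro y hy
    rw [hf y hy, hβ, Dat.act_one]
    ring
  rw [HH_act]
  unfold HH
  rw [sum_add_distrib, ← mul_sum, add_add_add_comm, ← mul_add, hf' x hx]
  congr 1
  have hsw : ∀ F : (cyk nb).G i → ℕ → (cyk nb).G i0 → ℤ,
      ∑ v, ∑ r ∈ range (K + 2), ∑ u, F v r u = ∑ r ∈ range (K + 2), ∑ u, ∑ v, F v r u := by
    intro F
    rw [sum_comm]
    exact sum_congr rfl fun r _ => sum_comm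
  rw [hsw, ← sum_add_distrib]
  refine sum_congr rfl fun r _ => ?_
  rw [← sum_add_distrib]
  refine sum_congr rfl fun u _ => ?_
  rw [← mul_sum, ← mul_add]
  congr 1
  beta_reduce
  rw [← hf' _ (by rw [Function.update_of_ne hi]; exact Dat.act_apply_none hx)]
  congr 1
  rw [← Equiv.sum_comp (Equiv.mulLeft (((tau nb)⁻¹ ^ r) i))
    (fun v => f (Function.update (Function.update ((cyk nb).act ((tau nb)⁻¹ ^ r) x) i0 (some u)) i
      (some v)))]
  refine sum_congr rfl fun v _ => ?_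
  rw [Dat.act_update_some, Function.update_comm hi]
  rfl

/-- the last term -/
lemma last_term (hi0 : nb i0 = 2 ^ K * 4) {f : (cyk nb).Pt → ℤ} (hf : Rl i0 f)
    {x : (cyk nb).Pt} (hx : x i0 = none) :
    ∑ u : (cyk nb).G i0,
      f (Function.update ((cyk nb).act ((tau nb)⁻¹ ^ (K + 1)) x) i0 (some u)) =
    f ((cyk nb).act (tau nb) x) - f x := by
  rw [hf _ (Dat.act_apply_none hx), alpha_eq hi0, beta_eq hi0, Dat.act_act, Dat.act_act]
  have h1 : tau nb ^ (K + 2) * (tau nb)⁻¹ ^ (K + 1) = tau nb := by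
    rw [inv_pow, pow_succ (tau nb) (K + 1), mul_assoc, mul_comm (tau nb), ← mul_assoc,
      mul_inv_cancel, one_mul]
  have h2 : tau nb ^ (K + 1) * (tau nb)⁻¹ ^ (K + 1) = 1 := by
    rw [inv_pow, mul_inv_cancel]
  rw [h1, h2, Dat.act_one]

/-- the relation at two -/
lemma HH_two (hi0 : nb i0 = 2 ^ K * 4) {f : (cyk nb).Pt → ℤ} (hf : Rl i0 f)
    {x : (cyk nb).Pt} (hx : x i0 = none) (t : ZMod (nb i0)) :
    HH i0 K f x t + HH i0 K f x (t + 2 ^ (K + 1)) =
      HH i0 K f ((cyk nb).act (tau nb) x) (2 * t) := by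
  have hcomb : HH i0 K f x t + HH i0 K f x (t + 2 ^ (K + 1)) =
      (if 2 * 0 = 2 * t then 1 else 0) * f x +
      ∑ r ∈ range (K + 2), ∑ u : (cyk nb).G i0, (if 2 * (2 ^ r * vb u) = 2 * t then 1 else 0) *
        f (Function.update ((cyk nb).act ((tau nb)⁻¹ ^ r) x) i0 (some u)) := by
    unfold HH
    rw [two_eq hi0, add_mul, add_add_add_comm]
    congr 1
    rw [← sum_add_distrib]
    refine sum_congr rfl fun r _ => ?_
    rw [← sum_add_distrib]
    refine sum_congr rfl fun u _ => ?_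
    rw [two_eq hi0, add_mul]
  rw [hcomb, sum_range_succ]
  have hlast : ∑ u : (cyk nb).G i0, (if 2 * (2 ^ (K + 1) * vb u) = 2 * t then 1 else 0) *
      f (Function.update ((cyk nb).act ((tau nb)⁻¹ ^ (K + 1)) x) i0 (some u)) =
      (if 2 * 0 = 2 * t then 1 else 0) * (f ((cyk nb).act (tau nb) x) - f x) := by
    rw [← last_term hi0 hf hx, mul_sum]
    refine sum_congr rfl fun u _ => ?_
    have h1 : (2 : ZMod (nb i0)) * (2 ^ (K + 1) * vb u) = 2 * 0 := by
      have h2 : (2 : ZMod (nb i0)) ^ (K + 1) * vb u = 2 ^ (K + 1) := pow_mul_unit hi0 u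
      rw [h2, mul_zero, ← pow_succ', two_pow_zero hi0]
    rw [h1]
  rw [hlast]
  have hR : HH i0 K f ((cyk nb).act (tau nb) x) (2 * t) =
      (if 2 * 0 = 2 * t then 1 else 0) * f ((cyk nb).act (tau nb) x) +
      ∑ r ∈ range (K + 1), ∑ u : (cyk nb).G i0, (if 2 * (2 ^ r * vb u) = 2 * t then 1 else 0) *
        f (Function.update ((cyk nb).act ((tau nb)⁻¹ ^ r) x) i0 (some u)) := by
    unfold HH
    rw [sum_range_succ']
    have h0 : ∑ u : (cyk nb).G i0, (if 2 ^ 0 * vb u = 2 * t then (1 : ℤ) else 0) *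
        f (Function.update ((cyk nb).act ((tau nb)⁻¹ ^ 0) ((cyk nb).act (tau nb) x)) i0
          (some u)) = 0 := by
      refine sum_eq_zero fun u _ => ?_
      have h1 : vb u ≠ 2 * t := unit_ne hi0 u t
      rw [pow_zero, one_mul, if_neg h1, zero_mul]
    rw [h0, add_zero, mul_zero]
    congr 1
    refine sum_congr rfl fun r _ => sum_congr rfl fun u _ => ?_
    have h1 : (2 : ZMod (nb i0)) ^ (r + 1) * vb u = 2 * (2 ^ r * vb u) := by ring
    have h2 : (cyk nb).act ((tau nb)⁻¹ ^ (r + 1)) ((cyk nb).act (tau nb) x) =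
        (cyk nb).act ((tau nb)⁻¹ ^ r) x := by
      rw [Dat.act_act, pow_succ, mul_assoc, inv_mul_cancel, mul_one]
    rw [h1, h2]
  rw [hR]
  ring

/-- the value at zero -/
lemma HH_zero (hi0 : nb i0 = 2 ^ K * 4) (f : (cyk nb).Pt → ℤ) (x : (cyk nb).Pt) :
    HH i0 K f x 0 = f x := by
  unfold HH
  rw [if_pos rfl, one_mul, sum_eq_zero, add_zero]
  intro r hr
  refine sum_eq_zero fun u _ => ?_
  have h1 : (2 : ZMod (nb i0)) ^ r * vb u ≠ 0 := pow_unit_ne_zero hi0 u (mem_range.mp hr)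
  rw [if_neg h1, zero_mul]

/-- the value at a power of two times a unit -/
lemma HH_pow (hi0 : nb i0 = 2 ^ K * 4) (f : (cyk nb).Pt → ℤ) (x : (cyk nb).Pt) {s : ℕ}
    (hs : s < K + 2) (w : (cyk nb).G i0) :
    HH i0 K f x (2 ^ s * vb w) = ∑ u : (cyk nb).G i0, (if 2 ^ s * vb u = 2 ^ s * vb w then 1
      else 0) * f (Function.update ((cyk nb).act ((tau nb)⁻¹ ^ s) x) i0 (some u)) := by
  unfold HH
  rw [if_neg (fun h => pow_unit_ne_zero hi0 w hs h.symm), zero_mul, zero_add,
    sum_eq_single_of_mem s (mem_range.mpr hs)]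
  intro r hr hrs
  refine sum_eq_zero fun u _ => ?_
  rw [if_neg, zero_mul]
  intro h
  exact hrs (pow_unit_eq hi0 (mem_range.mp hr) hs h)

/-- the value at the element of order two -/
lemma HH_last (hi0 : nb i0 = 2 ^ K * 4) {f : (cyk nb).Pt → ℤ} (hf : Rl i0 f)
    {x : (cyk nb).Pt} (hx : x i0 = none) (w : (cyk nb).G i0) :
    HH i0 K f x (2 ^ (K + 1) * vb w) = f ((cyk nb).act (tau nb) x) - f x := by
  rw [HH_pow hi0 f x (by omega), ← last_term hi0 hf hx]
  refine sum_congr rfl fun u _ => ?_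
  have h2 : ∀ u : (cyk nb).G i0, (2 : ZMod (nb i0)) ^ (K + 1) * vb u = 2 ^ (K + 1) :=
    fun u => pow_mul_unit hi0 u
  rw [h2, h2, if_pos rfl, one_mul]

end

end Pool.Agent.N747.TF
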