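import Pool.Agent.N747.TF.Den
import Pool.Agent.N993.CoreG

/-!
# TF/PP: push forward from the level `2 ^ K * 4` to the level 4 and to all points
-/

set_option autoImplicit false
set_option linter.unusedSectionVars false

namespace Pool.Agent.N747.TF

open Finset Pool.Agent.H916R2 Pool.Agent.N992 Pool.Agent.N993
open Pool.Agent.N198.TB (Sp sq rs one S1 MM bx box Z0)
open Pool.Agent.N198.TF

section low

set_option allowUnsafeReducibility true in
attribute [local semireducible] cyk cyc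

variable {ι : Type} [Fintype ι] [DecidableEq ι] {n nb : ι → ℕ} [∀ i, NeZero (n i)]
  [∀ i, NeZero (nb i)] {N M K : ℕ} [NeZero N] [NeZero M]

lemma ite_iff {p q : Prop} [Decidable p] [Decidable q] (h : p ↔ q) :
    (if p then (1 : ℤ) else 0) = if q then 1 else 0 := by
  by_cases hp : p
  · rw [if_pos hp, if_pos (h.mp hp)]
  · rw [if_neg hp, if_neg (fun hq => hp (h.mpr hq))]

lemma cast_iff {m m' : ℕ} (h : m' = m) (k : ℕ) (z : ℤ) :
    ((k : ℕ) : ZMod m') = ((z : ℤ) : ZMod m') ↔ ((k : ℕ) : ZMod m) = ((z : ℤ) : ZMod m) := by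
  subst h; rfl

lemma pow_cast_iff {m : ℕ} (hm : m = 2 ^ K * 4) (k : ℕ) (z : ℤ) :
    (2 : ZMod m) ^ K * ((k : ℕ) : ZMod m) = 2 ^ K * ((z : ℤ) : ZMod m) ↔
      ((k : ℕ) : ZMod 4) = ((z : ℤ) : ZMod 4) := by
  have e1 : (2 : ZMod m) ^ K * ((k : ℕ) : ZMod m) = 2 ^ K * ((z : ℤ) : ZMod m) ↔
      (((2 ^ K * ((k : ℤ) - z) : ℤ)) : ZMod m) = 0 := by
    push_cast
    rw [mul_sub, sub_eq_zero]
  have e2 : ((k : ℕ) : ZMod 4) = ((z : ℤ) : ZMod 4) ↔
      ((((k : ℤ) - z : ℤ)) : ZMod 4) = 0 := by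
    push_cast
    rw [sub_eq_zero]
  rw [e1, e2, ZMod.intCast_zmod_eq_zero_iff_dvd, ZMod.intCast_zmod_eq_zero_iff_dvd, hm]
  push_cast
  exact mul_dvd_mul_iff_left (by positivity)

lemma ptb_some_iff {a : ∀ i, ZMod (nb i)} {i : ι} {u : (cyk nb).G i} :
    ptb a i = some u ↔ a i = vb u := by
  refine ⟨fun h => ?_, ptb_of_eq⟩
  by_cases hu : IsUnit (a i)
  · obtain ⟨v, hv, hv'⟩ := ptb_of_isUnit hu
    rw [hv] at h
    rw [← hv', Option.some.inj h]
  · rw [ptb_of_not hu] at h
    exact absurd h (by simp)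

lemma emb_some_iff (hn : Adm' n) {x : (cyc n).Pt} {i : ι} {u : (cyc n).G i} :
    x i = some u ↔ emb x i = vl u := by
  refine ⟨emb_some, fun h => ?_⟩
  cases hx : x i with
  | none =>
    rw [emb_none hx] at h
    exact absurd (h ▸ vl_isUnit u : IsUnit (0 : ZMod (n i))) (Pool.Agent.N993.not_isUnit_zero hn)
  | some v =>
    rw [emb_some hx] at h
    rw [vl_injective h]

/-- the setting -/
structure Set4 (n nb : ι → ℕ) [∀ i, NeZero (n i)] [∀ i, NeZero (nb i)] (K : ℕ) (i0 : ι) :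
    Prop where
  adm : Adm' n
  co : Pairwise (fun i j => (n i).Coprime (n j))
  cob : Pairwise (fun i j => (nb i).Coprime (nb j))
  four : n i0 = 4
  top : nb i0 = 2 ^ K * 4
  eq : ∀ i, i ≠ i0 → nb i = n i
  pr : ∀ i, i ≠ i0 → (n i).Prime ∧ n i % 2 = 1

variable {i0 : ι}

lemma Set4.prb (S : Set4 n nb K i0) {i : ι} (hi : i ≠ i0) : (nb i).Prime := by
  rw [S.eq i hi]; exact (S.pr i hi).1

lemma Set4.beta (S : Set4 n nb K i0) {i : ι} (hi : i ≠ i0) : (cyk nb).β i = 1 := by
  funext j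
  change (if 2 ∣ nb i then unOf (nb i / 2) (nb j) else 1) = _
  rw [if_neg]
  · rfl
  · rw [S.eq i hi]
    have := (S.pr i hi).2
    omega

lemma Set4.dst (S : Set4 n nb K i0) (hM : ∏ i, nb i = M) (Eb : (∀ i, ZMod (nb i)) ≃+* ZMod M)
    {T : Finset ι} {f : (cyk nb).Pt → ℤ} (hf : Ok T f) :
    Dst (fun a : ZMod M => Gx i0 K f (Eb.symm a)) where
  dist := by
    intro p d hp hpd a
    obtain ⟨i, -, hpi⟩ : ∃ i ∈ (univ : Finset ι), p ∣ nb i := by
      rw [← (Nat.Prime.prime hp).dvd_finsetProd_iff, hM]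
      exact ⟨d, hpd.symm⟩
    by_cases hi : i = i0
    · subst hi
      have hp2 : p = 2 := by
        have h1 : p ∣ 2 ^ (K + 2) := by
          rw [S.top] at hpi
          rw [pow_add]
          exact hpi
        exact (Nat.prime_dvd_prime_iff_eq hp Nat.prime_two).mp (hp.dvd_of_dvd_pow h1)
      subst hp2
      have h1 := two_level S.cob hM Eb (Gx i K f) S.top hpd a
      rw [h1, Gx_two S.top S.cob (hf.rl i)]
      congr 1
      rw [map_mul, map_natCast, nsmul_eq_mul]
    · obtain rfl : p = nb i := (Nat.prime_dvd_prime_iff_eq hp (S.prb hi)).mp hpi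
      rw [sum_level S.cob hM Eb (Gx i0 K f) hp hpd a, Gx_odd S.cob hi hp (hf.rl i) (S.beta hi)]
      congr 1
      rw [map_mul, map_natCast, nsmul_eq_mul]

lemma Set4.oddDist (S : Set4 n nb K i0) (hM : ∏ i, nb i = M)
    (Eb : (∀ i, ZMod (nb i)) ≃+* ZMod M)
    {T : Finset ι} (h4 : 4 ≤ T.card) {f : (cyk nb).Pt → ℤ} (hf : Ok T f) :
    OddDist (fun a : ZMod M => ((Gx i0 K f (Eb.symm a) : ℤ) : ZMod 2)) where
  neg := by
    intro a
    rw [map_neg, Gx_neg hf.ev, CharTwo.neg_eq]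
  half := by
    intro a ha
    have h1 : ∀ i, i ≠ i0 → Eb.symm a i = 0 := by
      intro i hi
      have h2 : Eb.symm a i + Eb.symm a i = 0 := by
        rw [← Pi.add_apply, ← map_add, ha, map_zero]; rfl
      have : Fact (nb i).Prime := ⟨S.prb hi⟩
      have h3 : (2 : ZMod (nb i)) ≠ 0 := by
        intro h
        have h4 : ((2 : ℕ) : ZMod (nb i)) = 0 := by exact_mod_cast h
        rw [ZMod.natCast_eq_zero_iff] at h4
        have h5 := (Nat.prime_dvd_prime_iff_eq (S.prb hi) Nat.prime_two).1 h4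
        have h6 := (S.pr i hi).2
        rw [← S.eq i hi] at h6
        omega
      rw [← two_mul] at h2
      exact (mul_eq_zero.1 h2).resolve_left h3
    obtain ⟨j, hjT, hj⟩ : ∃ j ∈ T, j ≠ i0 := by
      by_contra h
      push Not at h
      have : T ⊆ {i0} := fun j hj => mem_singleton.mpr (h j hj)
      have := card_le_card this
      rw [card_singleton] at this
      omega
    have h2 : ∀ y : (cyk nb).Pt, y j = none → f y = 0 := by
      intro y hy
      by_contra h
      exact hf.sp y h j hjT hy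
    have h3 : x0 i0 (Eb.symm a) j = none := by
      have : Fact (nb j).Prime := ⟨S.prb hj⟩
      rw [x0_ne _ hj]
      refine ptb_of_not ?_
      rw [h1 j hj]
      exact _root_.not_isUnit_zero
    have h5 : Gx i0 K f (Eb.symm a) = 0 := by
      unfold Gx HH
      rw [h2 _ h3, mul_zero, zero_add]
      refine sum_eq_zero fun r _ => sum_eq_zero fun u _ => ?_
      rw [h2, mul_zero]
      rw [Function.update_of_ne hj]
      exact Dat.act_apply_none h3
    rw [h5, Int.cast_zero]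
  dist := by
    intro p d hp hpd a
    have h1 := (S.dst hM Eb hf).dist p d hp hpd a
    beta_reduce at h1
    rw [← h1]
    push_cast
    rfl

/-! ### The pushed system -/

/-- the pushed system -/
noncomputable def lamf (i0 : ι) (K : ℕ) (E : (∀ i, ZMod (n i)) ≃+* ZMod N)
    (Eb : (∀ i, ZMod (nb i)) ≃+* ZMod M) (f : (cyk nb).Pt → ℤ) : (cyc n).Pt → ℤ := fun x =>
  Gx i0 K f (Eb.symm (iota (2 ^ K) (E (emb x))))

/-- the number of a point -/
noncomputable def kk (E : (∀ i, ZMod (n i)) ≃+* ZMod N) (x : (cyc n).Pt) : ℕ := (E (emb x)).val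

lemma kk_emb (E : (∀ i, ZMod (n i)) ≃+* ZMod N) (x : (cyc n).Pt) (i : ι) :
    ((kk E x : ℕ) : ZMod (n i)) = emb x i := by
  have h1 : E (fun j => ((kk E x : ℕ) : ZMod (n j))) = E (emb x) := by
    rw [← E_natCast E (kk E x)]
    unfold kk
    rw [ZMod.natCast_zmod_val]
  exact congrFun (E.injective h1) i

/-- the lifted point -/
noncomputable def XX (nb : ι → ℕ) [∀ i, NeZero (nb i)] (i0 : ι)
    (E : (∀ i, ZMod (n i)) ≃+* ZMod N) (x : (cyc n).Pt) : (cyk nb).Pt :=
  x0 i0 (fun i => ((kk E x : ℕ) : ZMod (nb i)))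

lemma XX_self (E : (∀ i, ZMod (n i)) ≃+* ZMod N) (x : (cyc n).Pt) : XX nb i0 E x i0 = none :=
  x0_self _

lemma Set4.XX_none (S : Set4 n nb K i0) (E : (∀ i, ZMod (n i)) ≃+* ZMod N) {x : (cyc n).Pt}
    {i : ι} (hx : x i = none) : XX nb i0 E x i = none := by
  by_cases hi : i = i0
  · subst hi; exact XX_self E x
  · unfold XX
    rw [x0_ne _ hi]
    refine ptb_of_not ?_
    have h1 := kk_emb E x i
    rw [emb_none hx] at h1
    have h2 := (cast_iff (S.eq i hi) (kk E x) 0).mpr (by rw [h1, Int.cast_zero])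
    rw [h2, Int.cast_zero]
    have : Fact (nb i).Prime := ⟨S.prb hi⟩
    exact _root_.not_isUnit_zero

lemma Set4.XX_bx (S : Set4 n nb K i0) (E : (∀ i, ZMod (n i)) ≃+* ZMod N) (x : (cyc n).Pt)
    {i : ι} (hi : i ≠ i0) : bx (D := cyk nb) i (XX nb i0 E x i) = bx (D := cyc n) i (x i) := by
  unfold bx
  congr 1
  · refine ite_iff ?_
    unfold XX
    rw [x0_ne _ hi, ptb_some_iff, emb_some_iff S.adm, ← kk_emb E x i]
    have h1 := cast_iff (S.eq i hi) (kk E x) 1
    rw [Int.cast_one, Int.cast_one] at h1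
    exact h1
  · refine ite_iff ?_
    unfold XX
    rw [x0_ne _ hi, ptb_some_iff, emb_some_iff S.adm, ← kk_emb E x i]
    have h1 := cast_iff (S.eq i hi) (kk E x) (-1)
    rw [Int.cast_neg, Int.cast_one, Int.cast_neg, Int.cast_one] at h1
    exact h1

lemma vb_tau_pow (S : Set4 n nb K i0) {j : ι} (hj : j ≠ i0) (s : ℕ) :
    vb ((tau nb ^ s) j) = (2 : ZMod (nb j)) ^ s := by
  have h3 : (2 : ℕ).Coprime (nb j) :=
    Nat.Coprime.coprime_dvd_left ⟨2 ^ K * 2, by rw [S.top]; ring⟩ (S.cob (Ne.symm hj))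
  have h4 : vb (tau nb j) = ((2 : ℕ) : ZMod (nb j)) := unOf_val h3
  have h5 : vb ((tau nb ^ s) j) = vb (tau nb j) ^ s := by
    induction s with
    | zero => rw [pow_zero, pow_zero]; rfl
    | succ s ih => rw [pow_succ, Pi.mul_apply, vb_mul, ih, pow_succ]
  rw [h5, h4]
  push_cast; rfl

lemma lamf_eq (S : Set4 n nb K i0) (hNM : 2 ^ K * N = M) (E : (∀ i, ZMod (n i)) ≃+* ZMod N)
    (Eb : (∀ i, ZMod (nb i)) ≃+* ZMod M) (f : (cyk nb).Pt → ℤ) (x : (cyc n).Pt) :
    lamf i0 K E Eb f x = HH i0 K f ((cyk nb).act (tau nb ^ K) (XX nb i0 E x))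
      (2 ^ K * ((kk E x : ℕ) : ZMod (nb i0))) := by
  have h1 : Eb.symm (iota (2 ^ K) (E (emb x))) =
      fun i => ((2 ^ K * kk E x : ℕ) : ZMod (nb i)) := by
    unfold iota
    rw [map_natCast]
    rfl
  unfold lamf Gx
  rw [h1]
  have h2 : x0 i0 (fun i => ((2 ^ K * kk E x : ℕ) : ZMod (nb i))) =
      (cyk nb).act (tau nb ^ K) (XX nb i0 E x) := by
    refine x0_mul (tau nb ^ K) fun j hj => ?_
    rw [vb_tau_pow S hj]
    push_cast; ring
  rw [h2]
  congr 1
  push_cast; ring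

lemma lamf_none (S : Set4 n nb K i0) (hNM : 2 ^ K * N = M) (E : (∀ i, ZMod (n i)) ≃+* ZMod N)
    (Eb : (∀ i, ZMod (nb i)) ≃+* ZMod M) (f : (cyk nb).Pt → ℤ) {x : (cyc n).Pt}
    (hx : x i0 = none) :
    lamf i0 K E Eb f x = f ((cyk nb).act (tau nb ^ K) (XX nb i0 E x)) := by
  rw [lamf_eq S hNM]
  have h1 := kk_emb E x i0
  rw [emb_none hx] at h1
  have h2 : (2 : ZMod (nb i0)) ^ K * ((kk E x : ℕ) : ZMod (nb i0)) = 2 ^ K * ((0 : ℤ) : ZMod _) := by
    rw [pow_cast_iff S.top, Int.cast_zero]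
    have h3 := (cast_iff S.four (kk E x) 0).mp (by rw [h1, Int.cast_zero])
    rw [h3, Int.cast_zero]
  rw [h2, Int.cast_zero, mul_zero, HH_zero S.top]

lemma lamf_some (S : Set4 n nb K i0) (hNM : 2 ^ K * N = M) (E : (∀ i, ZMod (n i)) ≃+* ZMod N)
    (Eb : (∀ i, ZMod (nb i)) ≃+* ZMod M) (f : (cyk nb).Pt → ℤ) {x : (cyc n).Pt}
    {ε : (cyc n).G i0} (hx : x i0 = some ε) :
    lamf i0 K E Eb f x = ∑ u : (cyk nb).G i0,
      (if 2 ^ K * vb u = 2 ^ K * ((kk E x : ℕ) : ZMod (nb i0)) then 1 else 0) *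
        f (Function.update (XX nb i0 E x) i0 (some u)) := by
  rw [lamf_eq S hNM]
  have h1 := kk_emb E x i0
  rw [emb_some hx] at h1
  have h2 : (kk E x).Coprime (n i0) := by
    rw [← ZMod.isUnit_iff_coprime, h1]
    exact vl_isUnit ε
  have h3 : (kk E x).Coprime (nb i0) := by
    rw [S.four] at h2
    have h5 : (kk E x).Coprime 2 := Nat.Coprime.coprime_dvd_right (by norm_num) h2
    have h6 : nb i0 = 2 ^ (K + 2) := by rw [S.top, pow_add]; norm_num
    rw [h6]
    exact h5.pow_right _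
  obtain ⟨w, hw⟩ : ∃ w : (cyk nb).G i0, vb w = ((kk E x : ℕ) : ZMod (nb i0)) :=
    ⟨unOf (kk E x) (nb i0), unOf_val h3⟩
  rw [← hw, HH_pow S.top f _ (by omega)]
  refine sum_congr rfl fun u _ => ?_
  congr 2
  rw [Dat.act_act, inv_pow, inv_mul_cancel, Dat.act_one]

lemma lamf_supp (S : Set4 n nb K i0) (hNM : 2 ^ K * N = M) (E : (∀ i, ZMod (n i)) ≃+* ZMod N)
    (Eb : (∀ i, ZMod (nb i)) ≃+* ZMod M) {T : Finset ι} {f : (cyk nb).Pt → ℤ} (hf : Ok T f)
    {x : (cyc n).Pt} (h : lamf i0 K E Eb f x ≠ 0) : ∀ i ∈ T, x i ≠ none := by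
  intro i hi hxi
  cases hx : x i0 with
  | none =>
    rw [lamf_none S hNM E Eb f hx] at h
    exact hf.sp _ h i hi (Dat.act_apply_none (S.XX_none E hxi))
  | some ε =>
    rw [lamf_some S hNM E Eb f hx] at h
    obtain ⟨u, -, hu⟩ := exists_ne_zero_of_sum_ne_zero h
    have h1 := right_ne_zero_of_mul hu
    have hne : i ≠ i0 := by
      rintro rfl
      rw [hx] at hxi
      exact absurd hxi (by simp)
    exact hf.sp _ h1 i hi (by rw [Function.update_of_ne hne]; exact S.XX_none E hxi)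

lemma sum_bx (S : Set4 n nb K i0) (E : (∀ i, ZMod (n i)) ≃+* ZMod N) (x : (cyc n).Pt) :
    ∑ u : (cyk nb).G i0,
      (if 2 ^ K * vb u = 2 ^ K * ((kk E x : ℕ) : ZMod (nb i0)) then (1 : ℤ) else 0) *
        bx (D := cyk nb) i0 (some u) = bx (D := cyc n) i0 (x i0) := by
  have key : ∀ v : (cyk nb).G i0, ∑ u : (cyk nb).G i0,
      (if 2 ^ K * vb u = 2 ^ K * ((kk E x : ℕ) : ZMod (nb i0)) then (1 : ℤ) else 0) *
        (if some u = some v then 1 else 0) =
      if 2 ^ K * vb v = 2 ^ K * ((kk E x : ℕ) : ZMod (nb i0)) then (1 : ℤ) else 0 := by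
    intro v
    rw [sum_eq_single v, if_pos rfl, mul_one]
    · intro u _ huv
      have : (some u : Option ((cyk nb).G i0)) ≠ some v := fun h => huv (Option.some.inj h)
      rw [if_neg this, mul_zero]
    · intro h
      exact absurd (mem_univ _) h
  unfold bx
  simp only [mul_sub]
  rw [sum_sub_distrib, key, key]
  have hcast : ∀ z : ℤ, ((kk E x : ℕ) : ZMod 4) = ((z : ℤ) : ZMod 4) ↔
      ((kk E x : ℕ) : ZMod (n i0)) = ((z : ℤ) : ZMod (n i0)) := fun z =>
    (cast_iff S.four (kk E x) z).symm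
  congr 1
  · refine ite_iff ?_
    rw [emb_some_iff S.adm, ← kk_emb E x i0]
    have h1 := (pow_cast_iff S.top (kk E x) 1).trans (hcast 1)
    rw [Int.cast_one, Int.cast_one] at h1
    exact eq_comm.trans h1
  · refine ite_iff ?_
    rw [emb_some_iff S.adm, ← kk_emb E x i0]
    have h1 := (pow_cast_iff S.top (kk E x) (-1)).trans (hcast (-1))
    rw [Int.cast_neg, Int.cast_one, Int.cast_neg, Int.cast_one] at h1
    exact eq_comm.trans h1

lemma box_mul {m : ι → ℕ} [∀ i, NeZero (m i)] {T : Finset ι} (h : i0 ∈ T) (y : (cyk m).Pt) :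
    box T y = bx i0 (y i0) * ∏ i ∈ T.erase i0, bx i (y i) :=
  (mul_prod_erase T _ h).symm

end low


section high

variable {ι : Type} [Fintype ι] [LinearOrder ι] {n nb : ι → ℕ} [∀ i, NeZero (n i)]
  [∀ i, NeZero (nb i)] {N M K : ℕ} [NeZero N] [NeZero M] {i0 : ι}

/-- counting the translates -/
lemma count_le {A : Type} [Fintype A] (g : A → ℤ) :
    ((univ.filter (fun u => ((g u : ℤ) : ZMod 2) ≠ 0)).card : ℤ) ≤ ∑ u, |g u| := by
  rw [← sum_boole]
  refine sum_le_sum fun u _ => ?_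
  split_ifs with h
  · refine Int.one_le_abs ?_
    rintro h0
    exact h (by rw [h0, Int.cast_zero])
  · exact abs_nonneg _

theorem push_four (S : Set4 n nb K i0)
    (hN : ∏ i, n i = N) (hM : ∏ i, nb i = M) (hNM : 2 ^ K * N = M)
    (E : (∀ i, ZMod (n i)) ≃+* ZMod N) (Eb : (∀ i, ZMod (nb i)) ≃+* ZMod M)
    {T : Finset ι} (h4 : 4 ≤ T.card) {L f : (cyk nb).Pt → ℤ} (hf : Ok T f)
    (hval : ∀ x, (cyk nb).Supp T x → L x = box T x)
    (hf1 : i0 ∈ T → f = L) (hf2 : i0 ∉ T → ∀ x, f ((cyk nb).act (tau nb ^ K) x) = L x) :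
    ∃ (lam : (cyc n).Pt → ℤ) (F : ZMod M → ZMod 2),
      ((cyc n).IsD univ lam ∧ (cyc n).Ty 1 univ lam ∧ (cyc n).EqS T lam (box T) ∧
        ∀ T', T' ≠ T → T'.card ≤ T.card → (cyc n).EqS T' lam 0) ∧
      OddDist F ∧
      (∀ b : ZMod N, F (iota (2 ^ K) b) = ((ext lam (E.symm b) : ℤ) : ZMod 2)) ∧
      ∀ a : ZMod M, (∀ u : (ZMod M)ˣ, F ((u : ZMod M) * a) = 0) ∨
        ∃ R : Finset ι, T ⊆ R ∧
          ((univ.filter (fun u : (ZMod M)ˣ => F ((u : ZMod M) * a) ≠ 0)).card : ℤ) *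
            (∏ i ∈ R, (ph (n i) : ℤ)) * ((T.card - 1).factorial : ℤ) ≤
          (Fintype.card (ZMod M)ˣ : ℤ) * (2 ^ R.card * ((R.card - 1).factorial : ℤ)) := by
  have hOD := S.oddDist hM Eb h4 hf
  refine ⟨lamf i0 K E Eb f, fun a : ZMod M => ((Gx i0 K f (Eb.symm a) : ℤ) : ZMod 2),
    ⟨?_, ?_, ?_, ?_⟩, hOD, ?_, ?_⟩
  · exact isD0_of_dst S.adm S.co hN E ((S.dst hM Eb hf).comp_iota hNM)
  · intro x _
    rw [Dat.T_triv (Dat.triv_int _), one_smul]
    unfold lamf
    rw [emb_c, map_neg, iota_neg hNM, map_neg, Gx_neg hf.ev]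
  · -- the values at the points with support in `T`
    intro x hx
    by_cases hi0 : i0 ∈ T
    · have hfL := hf1 hi0
      have hbox : box (D := cyc n) T x =
          bx (D := cyc n) i0 (x i0) * ∏ i ∈ T.erase i0, bx (D := cyc n) i (x i) :=
        (mul_prod_erase T _ hi0).symm
      cases hxi : x i0 with
      | none =>
        rw [lamf_none S hNM E Eb f hxi]
        have h1 : f ((cyk nb).act (tau nb ^ K) (XX nb i0 E x)) = 0 := by
          by_contra h
          exact hf.sp _ h i0 hi0 (Dat.act_apply_none (XX_self E x))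
        have h2 : bx (D := cyc n) i0 (none : Option ((cyc n).G i0)) = 0 := by
          unfold bx
          rw [if_neg (by simp), if_neg (by simp), sub_zero]
        rw [h1, hbox, hxi, h2, zero_mul]
      | some ε =>
        rw [lamf_some S hNM E Eb f hxi, hbox, ← sum_bx S E x, sum_mul]
        refine sum_congr rfl fun u _ => ?_
        rw [mul_assoc]
        congr 1
        rw [hfL, hval]
        · have hb : box (D := cyk nb) T (Function.update (XX nb i0 E x) i0 (some u)) =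
              bx (D := cyk nb) i0 (Function.update (XX nb i0 E x) i0 (some u) i0) *
                ∏ i ∈ T.erase i0, bx (D := cyk nb) i
                  (Function.update (XX nb i0 E x) i0 (some u) i) :=
            (mul_prod_erase T _ hi0).symm
          rw [hb, Function.update_self]
          congr 1
          refine prod_congr rfl fun i hi => ?_
          have hne := ne_of_mem_erase hi
          rw [Function.update_of_ne hne, S.XX_bx E x hne]
        · intro i hi
          have hne : i ≠ i0 := by rintro rfl; exact hi hi0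
          rw [Function.update_of_ne hne]
          exact S.XX_none E (hx i hi)
    · rw [lamf_none S hNM E Eb f (hx i0 hi0), hf2 hi0, hval]
      · unfold Pool.Agent.N198.TB.box
        refine prod_congr rfl fun i hi => ?_
        have hne : i ≠ i0 := by rintro rfl; exact hi0 hi
        exact S.XX_bx E x hne
      · intro i hi
        exact S.XX_none E (hx i hi)
  · intro T' hne hcard x hx
    by_contra h
    apply hne
    have h3 := lamf_supp S hNM E Eb hf (x := x) h
    have h5 : T ⊆ T' := by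
      intro i hi
      by_contra h6
      exact h3 i hi (hx i h6)
    exact (eq_of_subset_of_card_le h5 hcard).symm
  · intro b
    have h1 := c_eq_ext S.adm S.co hN E (hOD.comp_iota hNM) (E.symm b)
    rw [RingEquiv.apply_symm_apply] at h1
    beta_reduce at h1
    beta_reduce
    rw [h1]
    exact ext_map (Int.castAddHom (ZMod 2)) (lamf i0 K E Eb f) (E.symm b)
  · -- the density
    intro a
    obtain ⟨e, he⟩ : ∃ e : (ZMod M)ˣ ≃ (cyk nb).GG, ∀ (u : (ZMod M)ˣ) (j : ι),
        Eb.symm ((u : ZMod M) * a) j = vb (e u j) * Eb.symm a j := by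
      refine ⟨(Units.mapEquiv Eb.symm.toMulEquiv).toEquiv.trans MulEquiv.piUnits.toEquiv, ?_⟩
      intro u j
      rw [map_mul]
      rfl
    have hG : ∀ u : (ZMod M)ˣ, Gx i0 K f (Eb.symm ((u : ZMod M) * a)) =
        HH i0 K (fun y => f ((cyk nb).act (e u) y)) (x0 i0 (Eb.symm a)) (Eb.symm a i0) :=
      fun u => Gx_unit f (e u) (he u)
    have hcardG : (Fintype.card (ZMod M)ˣ : ℤ) = MM (cyk nb) := by
      unfold MM
      exact_mod_cast Fintype.card_congr e
    have hph : ∀ i, i ≠ i0 → (ph (n i) : ℤ) = (Fintype.card ((cyk nb).G i) : ℤ) := by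
      intro i hi
      have : Fact (nb i).Prime := ⟨S.prb hi⟩
      have h := ZMod.card_units (nb i)
      have h4' : n i ≠ 4 := not_four_of_prime (S.pr i hi).1
      unfold ph
      rw [if_neg h4', ← S.eq i hi, ← h]
    have hw1 : ∀ R, i0 ∉ R → (∏ i ∈ R, (ph (n i) : ℤ)) = wg (cyk nb) R := by
      intro R hR
      unfold wg
      refine prod_congr rfl fun i hi => hph i ?_
      rintro rfl
      exact hR hi
    have hw2 : ∀ R, i0 ∉ R → (∏ i ∈ insert i0 R, (ph (n i) : ℤ)) = 2 * wg (cyk nb) R := by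
      intro R hR
      rw [prod_insert hR, hw1 R hR]
      congr 1
      unfold ph
      rw [if_pos S.four]
      rfl
    have hw3 : ∀ R, i0 ∉ R → wg (cyk nb) (insert i0 R) = 2 ^ (K + 1) * wg (cyk nb) R := by
      intro R hR
      unfold wg
      rw [prod_insert hR]
      congr 1
      have h6 : nb i0 = 2 ^ (K + 2) := by rw [S.top, pow_add]; norm_num
      have h7 : Fintype.card (ZMod (nb i0))ˣ = 2 ^ (K + 1) := by
        rw [ZMod.card_units_eq_totient, h6, Nat.totient_prime_pow_succ Nat.prime_two]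
        norm_num
      have h8 : Fintype.card ((cyk nb).G i0) = 2 ^ (K + 1) := h7
      rw [h8]
      push_cast
      rfl
    rcases density S.top h4 hf hw1 hw2 hw3 (x0_self (Eb.symm a)) (Eb.symm a i0) with h | ⟨R, hTR, hR⟩
    · left
      intro u
      beta_reduce
      rw [hG u, h (e u), Int.cast_zero]
    · right
      refine ⟨R, hTR, ?_⟩
      rw [hcardG]
      refine le_trans ?_ hR
      have hfac : 0 ≤ ((T.card - 1).factorial : ℤ) := by positivity
      refine mul_le_mul_of_nonneg_right (mul_le_mul_of_nonneg_right ?_ (by positivity)) hfac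
      refine (count_le (fun u : (ZMod M)ˣ => Gx i0 K f (Eb.symm ((u : ZMod M) * a)))).trans ?_
      rw [← Equiv.sum_comp e]
      exact sum_le_sum fun u _ => by rw [hG u]

/-- the case without the index of the power of two -/
theorem push_odd (hn : ∀ i, (n i).Prime ∧ n i % 2 = 1)
    (hco : Pairwise (fun i j => (n i).Coprime (n j)))
    (hN : ∏ i, n i = N) (E : (∀ i, ZMod (n i)) ≃+* ZMod N)
    {T : Finset ι} (hT : Even T.card) (h4 : 4 ≤ T.card) {L : (cyk n).Pt → ℤ}
    (hL : Lam T (univ \ T) L) :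
    ∃ (lam : (cyc n).Pt → ℤ) (F : ZMod N → ZMod 2),
      ((cyc n).IsD univ lam ∧ (cyc n).Ty 1 univ lam ∧ (cyc n).EqS T lam (box T) ∧
        ∀ T', T' ≠ T → T'.card ≤ T.card → (cyc n).EqS T' lam 0) ∧
      OddDist F ∧
      (∀ b : ZMod N, F b = ((ext lam (E.symm b) : ℤ) : ZMod 2)) ∧
      ∀ a : ZMod N, (∀ u : (ZMod N)ˣ, F ((u : ZMod N) * a) = 0) ∨
        ∃ R : Finset ι, T ⊆ R ∧
          ((univ.filter (fun u : (ZMod N)ˣ => F ((u : ZMod N) * a) ≠ 0)).card : ℤ) *
            (∏ i ∈ R, (ph (n i) : ℤ)) * ((T.card - 1).factorial : ℤ) ≤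
          (Fintype.card (ZMod N)ˣ : ℤ) * (2 ^ R.card * ((R.card - 1).factorial : ℤ)) := by
  have hOk := ok_of_lam hT hL
  have hbk : ∀ i, (cyk n).β i = 1 := by
    intro i
    funext j
    change (if 2 ∣ n i then unOf (n i / 2) (n j) else 1) = _
    rw [if_neg (by have := (hn i).2; omega)]
    rfl
  obtain ⟨lam, hlam⟩ : ∃ lam : (cyc n).Pt → ℤ, lam = L := ⟨L, rfl⟩
  have hact : ∀ (b : (cyc n).GG) (x : (cyc n).Pt), (cyc n).act b x = (cyk n).act b x :=
    fun _ _ => rfl
  have hIsD : (cyc n).IsD univ lam := by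
    change (cyc n).IsD0 univ lam
    intro i _ x _ hx
    have h1 := hOk.rl i x hx
    rw [hbk i, Dat.act_one] at h1
    have hb : (cyc n).β i = 1 := beta_one (by have := (hn i).2; omega)
    rw [hb, Dat.act_one, hlam]
    exact h1
  have hTy : (cyc n).Ty 1 univ lam := by
    intro x _
    rw [Dat.T_triv (Dat.triv_int _), one_smul, hlam]
    exact hOk.ev x
  have h0 : lam (fun _ => none) = 0 := by
    by_contra h
    rw [hlam] at h
    obtain ⟨i, hi⟩ := card_pos.mp (by omega : 0 < T.card)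
    exact hOk.sp _ h i hi rfl
  obtain ⟨e, he⟩ := Pool.Agent.N198.TB.exists_units E
  have hF := Pool.Agent.N31.TB.oddDist_two hn hco hN E hIsD hTy h0
  refine ⟨lam, fun b => ((lam (pt (E.symm b)) : ℤ) : ZMod 2), ⟨hIsD, hTy, ?_, ?_⟩, hF, ?_, ?_⟩
  · intro x hx
    rw [hlam]
    exact hL.val x hx
  · intro T' hne hcard x hx
    by_contra h
    apply hne
    rw [hlam] at h
    have h3 := hOk.sp x h
    have h5 : T ⊆ T' := by
      intro i hi
      by_contra h6
      exact h3 i hi (hx i h6)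
    exact (eq_of_subset_of_card_le h5 hcard).symm
  · intro b
    rw [ext_of_not lam (Pool.Agent.N31.TB.not_flag hn _)]
  · intro a
    obtain ⟨x, hx⟩ : ∃ x : (cyk n).Pt, x = pt (E.symm a) := ⟨_, rfl⟩
    have hcardG : (Fintype.card (ZMod N)ˣ : ℤ) = MM (cyk n) := by
      unfold MM
      exact_mod_cast Fintype.card_congr e
    obtain ⟨R, hR⟩ : ∃ R, R = univ.filter (fun i => x i ≠ none) := ⟨_, rfl⟩
    have hval : ∀ u : (ZMod N)ˣ, lam (pt (E.symm ((u : ZMod N) * a))) =
        L ((cyk n).act (e u) x) := by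
      intro u
      rw [he, hlam, hx]
      rfl
    by_cases hTR : T ⊆ R
    · right
      refine ⟨R, hTR, ?_⟩
      have hPR : (∏ i ∈ R, (ph (n i) : ℤ)) = wg (cyk n) R := by
        unfold wg
        refine prod_congr rfl fun i _ => ?_
        have : Fact (n i).Prime := ⟨(hn i).1⟩
        have h := ZMod.card_units (n i)
        have h4' : n i ≠ 4 := not_four_of_prime (hn i).1
        unfold ph
        rw [if_neg h4', ← h]
      have h1 := hOk.nm R hTR
      rw [hcardG, hPR]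
      refine le_trans ?_ h1
      have hfac : 0 ≤ ((T.card - 1).factorial : ℤ) := by positivity
      have hwg : 0 < wg (cyk n) R := Pool.Agent.N198.TB.wg_pos (D := cyk n) R
      refine mul_le_mul_of_nonneg_right (mul_le_mul_of_nonneg_right ?_ hwg.le) hfac
      refine (count_le (fun u : (ZMod N)ˣ => lam (pt (E.symm ((u : ZMod N) * a))))).trans ?_
      rw [hR, ← sum_orbit L x, ← Equiv.sum_comp e]
      exact sum_le_sum fun u _ => by rw [hval u]
    · left
      intro u
      beta_reduce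
      rw [hval u, zero_of_not hOk (by rw [← hR]; exact hTR), Int.cast_zero]

theorem push {ι : Type} [Fintype ι] [LinearOrder ι] {n nb : ι → ℕ} [∀ i, NeZero (n i)]
    [∀ i, NeZero (nb i)] {N M K : ℕ} [NeZero N] [NeZero M] (hn : Adm' n)
    (hnb : ∀ i, nb i = if n i = 4 then 2 ^ K * 4 else n i)
    (hco : Pairwise (fun i j => (n i).Coprime (n j)))
    (hcob : Pairwise (fun i j => (nb i).Coprime (nb j)))
    (hN : ∏ i, n i = N) (hM : ∏ i, nb i = M) (hNM : 2 ^ K * N = M)
    (E : (∀ i, ZMod (n i)) ≃+* ZMod N) (Eb : (∀ i, ZMod (nb i)) ≃+* ZMod M)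
    {T : Finset ι} (hT : Even T.card) (h4 : 4 ≤ T.card) {L : (cyk nb).Pt → ℤ}
    (hL : Lam T (univ \ T) L) :
    ∃ (lam : (cyc n).Pt → ℤ) (F : ZMod M → ZMod 2),
      ((cyc n).IsD univ lam ∧ (cyc n).Ty 1 univ lam ∧ (cyc n).EqS T lam (box T) ∧
        ∀ T', T' ≠ T → T'.card ≤ T.card → (cyc n).EqS T' lam 0) ∧
      OddDist F ∧
      (∀ b : ZMod N, F (iota (2 ^ K) b) = ((ext lam (E.symm b) : ℤ) : ZMod 2)) ∧
      ∀ a : ZMod M, (∀ u : (ZMod M)ˣ, F ((u : ZMod M) * a) = 0) ∨
        ∃ R : Finset ι, T ⊆ R ∧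
          ((univ.filter (fun u : (ZMod M)ˣ => F ((u : ZMod M) * a) ≠ 0)).card : ℤ) *
            (∏ i ∈ R, (ph (n i) : ℤ)) * ((T.card - 1).factorial : ℤ) ≤
          (Fintype.card (ZMod M)ˣ : ℤ) * (2 ^ R.card * ((R.card - 1).factorial : ℤ)) := by
  by_cases hex : ∃ i0, n i0 = 4
  · obtain ⟨i0, h40⟩ := hex
    have hne : ∀ i, i ≠ i0 → n i ≠ 4 := fun i hi h => hi (eq_of_four hco h40 h)
    have S : Set4 n nb K i0 :=
      { adm := hn
        co := hco
        cob := hcob
        four := h40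
        top := by rw [hnb, if_pos h40]
        eq := fun i hi => by rw [hnb, if_neg (hne i hi)]
        pr := fun i hi => (hn i).resolve_right (hne i hi) }
    have hOk := ok_of_lam hT hL
    by_cases hi0 : i0 ∈ T
    · exact push_four S hN hM hNM E Eb h4 hOk hL.val (fun _ => rfl) (fun h => absurd hi0 h)
    · refine push_four S hN hM hNM E Eb h4 (hOk.act ((tau nb ^ K)⁻¹)) hL.val
        (fun h => absurd h hi0) (fun _ x => ?_)
      beta_reduce
      rw [Dat.act_act, inv_mul_cancel, Dat.act_one]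
  · push Not at hex
    obtain rfl : nb = n := by
      funext i
      rw [hnb, if_neg (hex i)]
    obtain rfl : N = M := hN.symm.trans hM
    have hK : 2 ^ K = 1 := by
      have h1 : 2 ^ K * N = 1 * N := by rw [hNM, one_mul]
      exact Nat.eq_of_mul_eq_mul_right (NeZero.pos N) h1
    obtain ⟨lam, F, h1, h2, h3, h5⟩ := push_odd (fun i => (hn i).resolve_right (hex i)) hco hN E
      hT h4 hL
    refine ⟨lam, F, h1, h2, ?_, h5⟩
    intro b
    rw [hK, ← h3 b]
    congr 1
    unfold iota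
    rw [one_mul, ZMod.natCast_zmod_val]

end high

end Pool.Agent.N747.TF
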