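import Mathlib

/-!
# TF/PP: the ring of integers modulo `2 ^ K * 4`
-/

set_option autoImplicit false

namespace Pool.Agent.N747.TF

open Finset

section

variable {K m : ℕ}

lemma two_pow_ne (hm : m = 2 ^ K * 4) : (2 : ZMod m) ^ (K + 1) ≠ 0 := by
  intro h
  have h1 : ((2 ^ (K + 1) : ℕ) : ZMod m) = 0 := by push_cast; exact h
  rw [ZMod.natCast_eq_zero_iff, hm] at h1
  have h2 := Nat.le_of_dvd (by positivity) h1
  have h3 : 0 < 2 ^ K := by positivity
  rw [pow_succ] at h2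
  omega

lemma two_pow_zero (hm : m = 2 ^ K * 4) : (2 : ZMod m) ^ (K + 2) = 0 := by
  have h1 : ((2 ^ (K + 2) : ℕ) : ZMod m) = 0 := by
    rw [ZMod.natCast_eq_zero_iff, hm]
    exact ⟨1, by rw [pow_add]; norm_num⟩
  push_cast at h1
  exact h1

lemma two_mul_eq_zero (hm : m = 2 ^ K * 4) [NeZero m] {z : ZMod m} (h : 2 * z = 0) :
    z = 0 ∨ z = 2 ^ (K + 1) := by
  have h1 : ((2 * z.val : ℕ) : ZMod m) = 0 := by
    push_cast
    rw [ZMod.natCast_zmod_val]; exact h
  rw [ZMod.natCast_eq_zero_iff] at h1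
  obtain ⟨k, hk⟩ := h1
  have h2 := ZMod.val_lt z
  have h3 : z.val = 2 ^ (K + 1) * k := by
    have : 2 * z.val = 2 * (2 ^ (K + 1) * k) := by rw [hk, hm, pow_succ]; ring
    omega
  have h4 : k < 2 := by
    by_contra h4
    have : 2 ^ (K + 1) * 2 ≤ 2 ^ (K + 1) * k := Nat.mul_le_mul_left _ (by omega)
    rw [← h3, pow_succ] at this
    omega
  have h5 : z = ((2 ^ (K + 1) * k : ℕ) : ZMod m) := by rw [← h3, ZMod.natCast_zmod_val]
  interval_cases k
  · left; rw [h5]; simp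
  · right; rw [h5]; push_cast; ring

lemma two_eq (hm : m = 2 ^ K * 4) [NeZero m] (s t : ZMod m) :
    (if 2 * s = 2 * t then (1 : ℤ) else 0) =
      (if s = t then 1 else 0) + (if s = t + 2 ^ (K + 1) then 1 else 0) := by
  have h0 := two_pow_ne hm
  have h00 := two_pow_zero hm
  by_cases h : 2 * s = 2 * t
  · rw [if_pos h]
    have h1 : 2 * (s - t) = 0 := by rw [mul_sub, h, sub_self]
    rcases two_mul_eq_zero hm h1 with h2 | h2
    · have h3 : s = t := sub_eq_zero.mp h2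
      rw [if_pos h3, if_neg, add_zero]
      rw [h3]
      intro h4
      exact h0 (by linear_combination -h4)
    · have h3 : s = t + 2 ^ (K + 1) := by rw [← h2]; ring
      rw [if_pos h3, if_neg, zero_add]
      intro h4
      exact h0 (by rw [← h2, h4, sub_self])
  · rw [if_neg h, if_neg, if_neg, add_zero]
    · intro h1
      apply h
      rw [h1, mul_add]
      have : (2 : ZMod m) * 2 ^ (K + 1) = 2 ^ (K + 2) := by ring
      rw [this, h00, add_zero]
    · rintro rfl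
      exact h rfl

lemma pow_mul_unit (hm : m = 2 ^ K * 4) [NeZero m] (u : (ZMod m)ˣ) :
    (2 : ZMod m) ^ (K + 1) * (u : ZMod m) = 2 ^ (K + 1) := by
  have h1 := ZMod.val_coe_unit_coprime u
  have h2 : Nat.Coprime (u : ZMod m).val 2 :=
    Nat.Coprime.coprime_dvd_right ⟨2 ^ K * 2, by rw [hm]; ring⟩ h1
  rw [Nat.coprime_comm, Nat.coprime_two_left] at h2
  obtain ⟨j, hj⟩ := h2
  have h3 : (u : ZMod m) = 2 * (j : ZMod m) + 1 := by
    have h4 : (((u : ZMod m).val : ℕ) : ZMod m) = ((2 * j + 1 : ℕ) : ZMod m) := by rw [hj]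
    rw [ZMod.natCast_zmod_val] at h4
    rw [h4]; push_cast; ring
  have h5 := two_pow_zero hm
  rw [h3]
  linear_combination (j : ZMod m) * h5

lemma unit_ne (hm : m = 2 ^ K * 4) [NeZero m] (u : (ZMod m)ˣ) (t : ZMod m) :
    (u : ZMod m) ≠ 2 * t := by
  intro h
  have h1 := pow_mul_unit hm u
  rw [h] at h1
  apply two_pow_ne hm
  rw [← h1]
  linear_combination t * two_pow_zero hm

lemma pow_unit_ne_zero (hm : m = 2 ^ K * 4) [NeZero m] (u : (ZMod m)ˣ) {r : ℕ} (hr : r < K + 2) :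
    (2 : ZMod m) ^ r * (u : ZMod m) ≠ 0 := by
  intro h
  apply two_pow_ne hm
  rw [← pow_mul_unit hm u]
  obtain ⟨s, hs⟩ := Nat.exists_eq_add_of_le (show r ≤ K + 1 by omega)
  rw [hs, pow_add]
  linear_combination (2 : ZMod m) ^ s * h

lemma pow_unit_le (hm : m = 2 ^ K * 4) [NeZero m] {u v : (ZMod m)ˣ} {r s : ℕ} (hr : r < K + 2)
    (h : (2 : ZMod m) ^ r * (u : ZMod m) = 2 ^ s * (v : ZMod m)) : s ≤ r := by
  by_contra hrs
  have h1 := pow_mul_unit hm u
  apply two_pow_ne hm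
  rw [← h1]
  obtain ⟨a, ha⟩ := Nat.exists_eq_add_of_le (show r ≤ K + 1 by omega)
  obtain ⟨b, hb⟩ := Nat.exists_eq_add_of_le (show r + 1 ≤ s by omega)
  have h2 : (2 : ZMod m) ^ (K + 1) * (u : ZMod m) = 2 ^ a * (2 ^ r * (u : ZMod m)) := by
    rw [ha, pow_add]; ring
  rw [h2, h, hb]
  have h3 : (2 : ZMod m) ^ a * (2 ^ (r + 1 + b) * (v : ZMod m)) = 2 ^ (K + 2) * (2 ^ b * v) := by
    have : K + 2 = a + r + 1 := by omega
    rw [this]; ring
  rw [h3, two_pow_zero hm, zero_mul]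

lemma pow_unit_eq (hm : m = 2 ^ K * 4) [NeZero m] {u v : (ZMod m)ˣ} {r s : ℕ} (hr : r < K + 2)
    (hs : s < K + 2)
    (h : (2 : ZMod m) ^ r * (u : ZMod m) = 2 ^ s * (v : ZMod m)) : r = s :=
  le_antisymm (pow_unit_le hm hs h.symm) (pow_unit_le hm hr h)

/-- every element is zero or a power of two times a unit -/
lemma exists_pow_unit (hm : m = 2 ^ K * 4) [NeZero m] (t : ZMod m) (ht : t ≠ 0) :
    ∃ r < K + 2, ∃ u : (ZMod m)ˣ, t = 2 ^ r * (u : ZMod m) := by
  have h0 : t.val ≠ 0 := by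
    intro h
    exact ht ((ZMod.val_eq_zero t).mp h)
  obtain ⟨r, q, hq, hrq⟩ := Nat.exists_eq_two_pow_mul_odd h0
  have h1 := ZMod.val_lt t
  have hq0 : 0 < q := hq.pos
  refine ⟨r, ?_, ZMod.unitOfCoprime q ?_, ?_⟩
  · by_contra h
    have h2 : 2 ^ (K + 2) ≤ 2 ^ r := Nat.pow_le_pow_right (by norm_num) (by omega)
    have h3 : 2 ^ r * 1 ≤ 2 ^ r * q := Nat.mul_le_mul_left _ hq0
    rw [← hrq] at h3
    rw [pow_add] at h2
    omega
  · rw [hm]
    have h2 : Nat.Coprime q 2 := by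
      rw [Nat.coprime_comm, Nat.coprime_two_left]; exact hq
    have h4 : (4 : ℕ) = 2 ^ 2 := by norm_num
    rw [h4]
    exact Nat.Coprime.mul_right (h2.pow_right _) (h2.pow_right _)
  · rw [ZMod.coe_unitOfCoprime]
    have h2 : ((t.val : ℕ) : ZMod m) = ((2 ^ r * q : ℕ) : ZMod m) := by rw [hrq]
    rw [ZMod.natCast_zmod_val] at h2
    rw [h2]; push_cast; ring

/-- the number of the solutions of `2 ^ r * w = c` -/
lemma card_pow_mul (hm : m = 2 ^ K * 4) [NeZero m] (r : ℕ) : ∀ c : ZMod m,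
    (univ.filter (fun w : ZMod m => 2 ^ r * w = c)).card ≤ 2 ^ r := by
  induction r with
  | zero =>
    intro c
    refine le_of_le_of_eq (card_le_one.mpr ?_) (pow_zero 2).symm
    intro a ha b hb
    rw [mem_filter] at ha hb
    have h1 := ha.2
    have h2 := hb.2
    rw [pow_zero, one_mul] at h1 h2
    rw [h1, h2]
  | succ r ih =>
    intro c
    by_cases hc : ∃ w : ZMod m, 2 ^ (r + 1) * w = c
    · obtain ⟨w0, hw0⟩ := hc
      have h1 : univ.filter (fun w : ZMod m => 2 ^ (r + 1) * w = c) ⊆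
          univ.filter (fun w : ZMod m => 2 ^ r * w = 2 ^ r * w0) ∪
            univ.filter (fun w : ZMod m => 2 ^ r * w = 2 ^ r * w0 + 2 ^ (K + 1)) := by
        intro w hw
        rw [mem_filter] at hw
        have h2 : 2 * (2 ^ r * w - 2 ^ r * w0) = 0 := by
          have := hw.2.trans hw0.symm
          linear_combination this
        rw [mem_union, mem_filter, mem_filter]
        rcases two_mul_eq_zero hm h2 with h3 | h3
        · left; exact ⟨mem_univ _, sub_eq_zero.mp h3⟩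
        · right; exact ⟨mem_univ _, by rw [← h3]; ring⟩
      refine (card_le_card h1).trans ((card_union_le _ _).trans ?_)
      have h2 := ih (2 ^ r * w0)
      have h3 := ih (2 ^ r * w0 + 2 ^ (K + 1))
      have h4 : (2 : ℕ) ^ (r + 1) = 2 ^ r * 2 := pow_succ 2 r
      rw [h4, mul_two]
      exact add_le_add h2 h3
    · push Not at hc
      rw [filter_false_of_mem (fun w _ => hc w), card_empty]
      exact Nat.zero_le _

end

end Pool.Agent.N747.TF
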